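import Mathlib

set_option autoImplicit false

namespace Pool.Agent.Q262.CE

open Real Set

/-- a nonzero real trigonometric polynomial of degree at most two has at most four zeros in
a period -/
theorem trig2 (A2 B2 A1 B1 A0 : ℝ) (h : A2 ≠ 0 ∨ B2 ≠ 0 ∨ A1 ≠ 0 ∨ B1 ≠ 0 ∨ A0 ≠ 0) :
    {v | v ∈ Ioc (-π) π ∧
      A2 * cos (2 * v) + B2 * sin (2 * v) + A1 * cos v + B1 * sin v + A0 = 0}.encard ≤ 4 := by
  set p : Polynomial ℂ := Polynomial.C (((A2 : ℂ) - B2 * Complex.I) / 2) * Polynomial.X ^ 4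
    + Polynomial.C (((A1 : ℂ) - B1 * Complex.I) / 2) * Polynomial.X ^ 3
    + Polynomial.C (A0 : ℂ) * Polynomial.X ^ 2
    + Polynomial.C (((A1 : ℂ) + B1 * Complex.I) / 2) * Polynomial.X
    + Polynomial.C (((A2 : ℂ) + B2 * Complex.I) / 2) with hp
  have hp0 : p ≠ 0 := by
    intro h0
    have c4 := congrArg (fun r => Polynomial.coeff r 4) h0
    have c3 := congrArg (fun r => Polynomial.coeff r 3) h0
    have c2 := congrArg (fun r => Polynomial.coeff r 2) h0
    simp [hp, Polynomial.coeff_X, Polynomial.coeff_C] at c4 c3 c2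
    rw [Complex.ext_iff] at c4 c3
    simp at c4 c3
    rcases h with h | h | h | h | h
    · exact h c4.1
    · exact h c4.2
    · exact h c3.1
    · exact h c3.2
    · exact h c2
  have hdeg : p.natDegree ≤ 4 := by
    rw [hp]
    compute_degree
  have hcard : (p.roots.toFinset.card : ℕ∞) ≤ 4 := by
    have h1 := (Multiset.toFinset_card_le p.roots).trans ((Polynomial.card_roots' p).trans hdeg)
    exact_mod_cast h1
  have hsub : {v | v ∈ Ioc (-π) π ∧
      A2 * cos (2 * v) + B2 * sin (2 * v) + A1 * cos v + B1 * sin v + A0 = 0} ⊆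
      Complex.arg '' (p.roots.toFinset : Set ℂ) := by
    rintro v ⟨hv, h0⟩
    refine ⟨Complex.cos v + Complex.sin v * Complex.I, ?_, Complex.arg_cos_add_sin_mul_I hv⟩
    rw [Finset.mem_coe, Multiset.mem_toFinset, Polynomial.mem_roots hp0, Polynomial.IsRoot.def]
    have h1 : (Complex.cos v + Complex.sin v * Complex.I) ^ 2 *
      ((A2 * cos (2 * v) + B2 * sin (2 * v) + A1 * cos v + B1 * sin v + A0 : ℝ) : ℂ) = 0 := by
      rw [h0]; simp
    rw [← h1]
    simp only [hp, Polynomial.eval_add, Polynomial.eval_mul, Polynomial.eval_C,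
      Polynomial.eval_pow, Polynomial.eval_X]
    push_cast
    rw [Complex.cos_two_mul, Complex.sin_two_mul]
    have hI : Complex.I ^ 2 = -1 := Complex.I_sq
    have hsc : Complex.sin v ^ 2 + Complex.cos v ^ 2 = 1 := Complex.sin_sq_add_cos_sq v
    generalize Complex.sin v = s at *
    generalize Complex.cos v = c at *
    generalize Complex.I = I at *
    linear_combination ((2*A2*s^2 + (-1)*A2*s^4 + 1*B1*s + (-1)*B1*s^3 + 1*A1*I*s^3 + 1*A1*c*s^2 + 1*A2*I^2*s^4 + 2*A2*c^2*s^2 + (-1)*B1*I^2*s^3 + (-3)*B1*c^2*s + 1*B2*I*s^4 + (-1)*B2*I^3*s^4 + (-4)*B2*c^3*s + 4*A2*I*c*s^3 + (-3)*B1*I*c*s^2 + (-6)*B2*I*c^2*s^2 + (-4)*B2*I^2*c*s^3) / 2) * hI + (((-1)*A2 + (-1)*A1*c + (-3)*A2*c^2 + 1*A2*s^2 + 1*B1*s + (-1)*B2*I + (-1)*A1*I*s + (-1)*B1*I*c + (-1)*B2*I*c^2 + (-1)*B2*I*s^2 + (-4)*A2*I*c*s) / 2) * hsc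
  exact (Set.encard_le_encard hsub).trans ((Set.encard_image_le _ _).trans
    (by rw [Set.encard_coe_eq_coe_finsetCard]; exact hcard))

end Pool.Agent.Q262.CE
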