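import Pool.Agent.Q262.CE.Zer
import Pool.Agent.Q262.CE.Trig

set_option autoImplicit false

namespace Pool.Agent.Q262.CE

open Real Set

lemma m_trig (e g o v : ℝ) : m e g o v = (-(g/2) * sin (2*o)) * cos (2*v)
    + (-(g/2)*cos (2*o)) * sin (2*v) + (-(g*e/2)*sin (2*o)) * cos v
    + (-(g*e/2)*cos (2*o) + e*(1-g/2)) * sin v + 0 := by
  have h1 : sin v ^ 2 + cos v ^ 2 = 1 := sin_sq_add_cos_sq v
  have h2 : sin o ^ 2 + cos o ^ 2 = 1 := sin_sq_add_cos_sq o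
  unfold m T q
  rw [sin_two_mul, sin_two_mul, cos_two_mul', cos_two_mul', sin_add, cos_add]
  generalize sin v = s at *
  generalize cos v = c at *
  generalize sin o = S at *
  generalize cos o = C at *
  linear_combination ((-1)*C^2*e*g*s + (-1)*C*S*c*e*g) * h1 + ((-1/2)*e*g*s) * h2

lemma mz4 {e g o : ℝ} (he : 0 < e) :
    {v | v ∈ Ioc (-π) π ∧ m e g o v = 0}.encard ≤ 4 := by
  have h := trig2 (-(g/2) * sin (2*o)) (-(g/2)*cos (2*o)) (-(g*e/2)*sin (2*o))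
    (-(g*e/2)*cos (2*o) + e*(1-g/2)) 0 (by
      by_cases hg : g = 0
      · right; right; right; left
        rw [hg]
        simpa using he.ne'
      · by_contra hcon
        push Not at hcon
        have h1 : sin (2 * o) = 0 := by
          rcases mul_eq_zero.1 hcon.1 with h | h
          · exact absurd (by linarith) hg
          · exact h
        have h2 : cos (2 * o) = 0 := by
          rcases mul_eq_zero.1 hcon.2.1 with h | h
          · exact absurd (by linarith) hg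
          · exact h
        have h3 := sin_sq_add_cos_sq (2 * o)
        rw [h1, h2] at h3
        norm_num at h3)
  simpa only [m_trig] using h

lemma T_neg (g o v : ℝ) : T g o (-v) = T g (-o) v := by
  unfold T
  rw [show -v + o = -(v + -o) by ring, sin_neg]
  ring

lemma q_neg (e v : ℝ) : q e (-v) = q e v := by
  unfold q
  rw [cos_neg]

lemma m_neg (e g o v : ℝ) : m e g o (-v) = - m e g (-o) v := by
  unfold m
  rw [T_neg, q_neg, show -v + o = -(v + -o) by ring, sin_neg, sin_neg, cos_neg]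
  ring

lemma H_neg (e g o v : ℝ) : H e g o (-v) = H e g (-o) v := by
  unfold H
  rw [T_neg, q_neg, m_neg, sin_neg]
  rw [mul_neg, neg_mul, neg_div_neg_eq]

lemma lower_le {P R : ℝ → Prop} (h : ∀ v, P v → R (-v)) :
    {v | v ∈ Ioo (-π) 0 ∧ P v}.encard ≤ {v | v ∈ Ioo (0 : ℝ) π ∧ R v}.encard := by
  apply Set.encard_le_encard_of_injOn (f := fun v => -v)
  · rintro v ⟨hv, hP⟩
    exact ⟨⟨by linarith [hv.2], by linarith [hv.1]⟩, h v hP⟩
  · intro x _ y _ hxy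
    exact neg_injective hxy

lemma upper_le {P R : ℝ → Prop} (h : ∀ v, P v → R (-v)) :
    {v | v ∈ Ioo (0 : ℝ) π ∧ P v}.encard ≤ {v | v ∈ Ioo (-π) 0 ∧ R v}.encard := by
  apply Set.encard_le_encard_of_injOn (f := fun v => -v)
  · rintro v ⟨hv, hP⟩
    exact ⟨⟨by linarith [hv.2], by linarith [hv.1]⟩, h v hP⟩
  · intro x _ y _ hxy
    exact neg_injective hxy

lemma Hlow {e g o c : ℝ} (he : 0 < e) (he1 : e < 1) (hg : 0 ≤ g) (hg1 : g < 1) (hc : 0 < c) :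
    {v | v ∈ Ioo (-π) 0 ∧ |H e g o v| = c}.encard ≤
      {v | v ∈ Ioo (0 : ℝ) π ∧ Psi e g (-o) v = 0}.encard
      + {v | v ∈ Ioo (-π) 0 ∧ m e g o v = 0}.encard + 1 := by
  have h1 : {v | v ∈ Ioo (-π) 0 ∧ |H e g o v| = c}.encard ≤
      {v | v ∈ Ioo (0 : ℝ) π ∧ |H e g (-o) v| = c}.encard := by
    apply lower_le (R := fun v => |H e g (-o) v| = c)
    intro v hv
    rw [H_neg, neg_neg]
    exact hv
  have h2 : {v | v ∈ Ioo (0 : ℝ) π ∧ m e g (-o) v = 0}.encard ≤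
      {v | v ∈ Ioo (-π) 0 ∧ m e g o v = 0}.encard := by
    apply upper_le (R := fun v => m e g o v = 0)
    intro v hv
    rw [m_neg, hv, neg_zero]
  have h3 := Hcount (o := -o) he he1 hg hg1 hc
  exact h1.trans (h3.trans (add_le_add_left (add_le_add_right h2 _) 1))

lemma disj_add {A B : Set ℝ} (h : Disjoint A B) {C : Set ℝ} (hA : A ⊆ C) (hB : B ⊆ C) :
    A.encard + B.encard ≤ C.encard := by
  rw [← Set.encard_union_eq h]
  exact Set.encard_le_encard (union_subset hA hB)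

/-- the points of the two open arcs -/
lemma m_arcs {e g o : ℝ} (he : 0 < e) :
    {v | v ∈ Ioo (0 : ℝ) π ∧ m e g o v = 0}.encard
      + {v | v ∈ Ioo (-π) 0 ∧ m e g o v = 0}.encard ≤ 4 := by
  refine (disj_add ?_ (C := {v | v ∈ Ioc (-π) π ∧ m e g o v = 0}) ?_ ?_).trans (mz4 he)
  · rw [Set.disjoint_left]
    rintro v ⟨hv, _⟩ ⟨hw, _⟩
    linarith [hv.1, hw.2]
  · rintro v ⟨hv, h⟩
    exact ⟨⟨by linarith [hv.1, Real.pi_pos], hv.2.le⟩, h⟩
  · rintro v ⟨hv, h⟩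
    exact ⟨⟨hv.1, by linarith [hv.2, Real.pi_pos]⟩, h⟩

lemma m_arcs2 {e g o : ℝ} (he : 0 < e) (h0 : m e g o 0 = 0) (hπ : m e g o π = 0) :
    {v | v ∈ Ioo (0 : ℝ) π ∧ m e g o v = 0}.encard
      + {v | v ∈ Ioo (-π) 0 ∧ m e g o v = 0}.encard ≤ 2 := by
  have hpi := Real.pi_pos
  have h1 : {v | v ∈ Ioo (0 : ℝ) π ∧ m e g o v = 0}.encard
      + {v | v ∈ Ioo (-π) 0 ∧ m e g o v = 0}.encard + ({0, π} : Set ℝ).encard ≤ 4 := by
    have hd : Disjoint {v | v ∈ Ioo (0 : ℝ) π ∧ m e g o v = 0}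
        {v | v ∈ Ioo (-π) 0 ∧ m e g o v = 0} := by
      rw [Set.disjoint_left]
      rintro v ⟨hv, _⟩ ⟨hw, _⟩
      linarith [hv.1, hw.2]
    rw [← Set.encard_union_eq hd]
    refine (disj_add ?_ (C := {v | v ∈ Ioc (-π) π ∧ m e g o v = 0}) ?_ ?_).trans (mz4 he)
    · rw [Set.disjoint_left]
      rintro v (⟨hv, _⟩ | ⟨hv, _⟩) hw
      · rcases hw with hw | hw
        · rw [hw] at hv; exact lt_irrefl _ hv.1
        · rw [hw] at hv; exact lt_irrefl _ hv.2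
      · rcases hw with hw | hw
        · rw [hw] at hv; exact lt_irrefl _ hv.2
        · rw [hw] at hv; linarith [hv.2]
    · rintro v (⟨hv, h⟩ | ⟨hv, h⟩)
      · exact ⟨⟨by linarith [hv.1], hv.2.le⟩, h⟩
      · exact ⟨⟨hv.1, by linarith [hv.2]⟩, h⟩
    · rintro v (h | h)
      · rw [h]; exact ⟨⟨by linarith, hpi.le⟩, h0⟩
      · rw [h]; exact ⟨⟨by linarith, le_rfl⟩, hπ⟩
  rw [Set.encard_pair hpi.ne] at h1
  have h2 : (4 : ℕ∞) = 2 + 2 := by norm_num
  rw [h2] at h1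
  exact (ENat.add_le_add_iff_right (by simp)).1 h1

/-- the zeros of the reduced system -/
def KP (e c₀ a₁ a₂ b₁ b₂ : ℝ) (x : ℝ × ℝ × ℝ) : Prop :=
  x.1 ∈ Ioc (-π) π ∧ x.2.1 ^ 2 + x.2.2 ^ 2 = 1 ∧
  (a₁ * cos x.1 + b₁ * sin x.1) * x.2.2 = (a₂ * cos x.1 + b₂ * sin x.1) * x.2.1 ∧
  c₀ * sin x.1 = q e x.1 * (x.2.1 * (-(a₁ * sin x.1) + (cos x.1 + e) * b₁)
    + x.2.2 * (-(a₂ * sin x.1) + (cos x.1 + e) * b₂))

lemma KP_main {e c₀ a₁ a₂ b₁ b₂ g o : ℝ} (hA : a₁ ^ 2 + a₂ ^ 2 = 1 - g * sin o ^ 2)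
    (hB : b₁ ^ 2 + b₂ ^ 2 = 1 - g * cos o ^ 2) (hAB : a₁ * b₁ + a₂ * b₂ = -(g * sin o * cos o))
    {v c s : ℝ} (h : KP e c₀ a₁ a₂ b₁ b₂ (v, c, s)) :
    ∃ k, k * c = a₁ * cos v + b₁ * sin v ∧ k * s = a₂ * cos v + b₂ * sin v ∧
      k ^ 2 = T g o v ∧ c₀ * k * sin v = q e v * m e g o v := by
  obtain ⟨-, h1, h2, h3⟩ := h
  simp only at h1 h2 h3
  set x1 := a₁ * cos v + b₁ * sin v with hx1
  set x2 := a₂ * cos v + b₂ * sin v with hx2
  have hk1 : (x1 * c + x2 * s) * c = x1 := by linear_combination x1 * h1 - s * h2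
  have hk2 : (x1 * c + x2 * s) * s = x2 := by linear_combination x2 * h1 + c * h2
  have hsc : sin v ^ 2 + cos v ^ 2 = 1 := sin_sq_add_cos_sq v
  have hT : x1 ^ 2 + x2 ^ 2 = T g o v := by
    rw [hx1, hx2]
    unfold T
    rw [sin_add]
    linear_combination (cos v ^ 2) * hA + (sin v ^ 2) * hB + (2 * sin v * cos v) * hAB + hsc
  have hm : x1 * (-(a₁ * sin v) + (cos v + e) * b₁) + x2 * (-(a₂ * sin v) + (cos v + e) * b₂)
      = m e g o v := by
    rw [hx1, hx2]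
    unfold m T q
    rw [sin_add, cos_add]
    linear_combination (-(sin v * cos v)) * hA + (sin v * (cos v + e)) * hB
      + (cos v * (cos v + e) - sin v ^ 2) * hAB
      + (cos o ^ 2 * e * g * sin v + cos o * sin o * cos v * e * g) * hsc
  refine ⟨x1 * c + x2 * s, hk1, hk2, ?_, ?_⟩
  · rw [← hT]
    linear_combination x1 * hk1 + x2 * hk2
  · rw [← hm]
    linear_combination (x1 * c + x2 * s) * h3
      + q e v * (-(a₁ * sin v) + (cos v + e) * b₁) * hk1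
      + q e v * (-(a₂ * sin v) + (cos v + e) * b₂) * hk2

end Pool.Agent.Q262.CE
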