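import Mathlib

set_option autoImplicit false

namespace Pool.Agent.Q262.CE

open Real Set

theorem gap (p r : ℝ → Prop)
    (h : ∀ x y, r x → r y → x < y → ∃ z, p z ∧ x < z ∧ z < y) :
    {x | r x}.encard ≤ {x | p x}.encard + 1 := by
  by_cases hfin : {x | p x}.Finite
  · by_contra hlt
    push Not at hlt
    set t := hfin.toFinset with ht
    have hpt : {x | p x}.encard = (t.card : ℕ∞) := by
      rw [ht, hfin.encard_eq_coe_toFinset_card]
    have h2 : ((t.card + 2 : ℕ) : ℕ∞) ≤ {x | r x}.encard := by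
      rw [hpt] at hlt
      have h3 := Order.add_one_le_of_lt hlt
      refine le_trans (le_of_eq ?_) h3
      push_cast
      rw [add_assoc]
      norm_num
    obtain ⟨U, hU, hUc⟩ := Set.exists_subset_encard_eq h2
    have hUf : U.Finite := by
      apply Set.finite_of_encard_eq_coe hUc
    have h4 : hUf.toFinset.card ≤ t.card + 1 := by
      apply Finset.card_le_of_interleaved
      intro x hx y hy hxy _
      obtain ⟨z, hz, h5, h6⟩ := h x y (hU (by simpa using hx)) (hU (by simpa using hy)) hxy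
      exact ⟨z, by simpa [ht] using hz, h5, h6⟩
    have h5 : U.encard = (hUf.toFinset.card : ℕ∞) := hUf.encard_eq_coe_toFinset_card
    rw [hUc] at h5
    have h6 : t.card + 2 = hUf.toFinset.card := by exact_mod_cast h5
    omega
  · have : {x | p x}.encard = ⊤ := Set.encard_eq_top_iff.2 hfin
    rw [this]
    simp

theorem rolle_enc {f f' : ℝ → ℝ} {a b : ℝ}
    (hf : ∀ x ∈ Ioo a b, HasDerivAt f (f' x) x) :
    {x | x ∈ Ioo a b ∧ f x = 0}.encard ≤ {x | x ∈ Ioo a b ∧ f' x = 0}.encard + 1 := by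
  apply gap
  rintro x y ⟨hx, hx0⟩ ⟨hy, hy0⟩ hxy
  have hsub : ∀ t ∈ Icc x y, t ∈ Ioo a b := fun t ht => ⟨hx.1.trans_le ht.1, ht.2.trans_lt hy.2⟩
  obtain ⟨z, hz, hz0⟩ := exists_hasDerivAt_eq_zero (f := f) (f' := f') hxy
    (fun t ht => (hf t (hsub t ht)).continuousAt.continuousWithinAt) (by rw [hx0, hy0])
    (fun t ht => hf t (hsub t ⟨ht.1.le, ht.2.le⟩))
  exact ⟨z, ⟨hsub z ⟨hz.1.le, hz.2.le⟩, hz0⟩, hz.1, hz.2⟩

theorem level_enc {h h' : ℝ → ℝ} {a b c : ℝ} (hc : 0 < c)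
    (hd : ∀ x ∈ Ioo a b, HasDerivAt h (h' x) x) :
    {x | x ∈ Ioo a b ∧ |h x| = c}.encard ≤ {x | x ∈ Ioo a b ∧ h' x = 0}.encard
      + {x | x ∈ Ioo a b ∧ h x = 0}.encard + 1 := by
  have h1 : {x | x ∈ Ioo a b ∧ |h x| = c}.encard ≤
      {x | (x ∈ Ioo a b ∧ h' x = 0) ∨ (x ∈ Ioo a b ∧ h x = 0)}.encard + 1 := by
    apply gap
    rintro x y ⟨hx, hx0⟩ ⟨hy, hy0⟩ hxy
    have hsub : ∀ t ∈ Icc x y, t ∈ Ioo a b :=
      fun t ht => ⟨hx.1.trans_le ht.1, ht.2.trans_lt hy.2⟩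
    have hcont : ContinuousOn h (Icc x y) :=
      fun t ht => (hd t (hsub t ht)).continuousAt.continuousWithinAt
    have case1 : h x = h y → ∃ z, ((z ∈ Ioo a b ∧ h' z = 0) ∨ (z ∈ Ioo a b ∧ h z = 0)) ∧
        x < z ∧ z < y := by
      intro he
      obtain ⟨z, hz, hz0⟩ := exists_hasDerivAt_eq_zero (f := h) (f' := h') hxy hcont he
        (fun t ht => hd t (hsub t ⟨ht.1.le, ht.2.le⟩))
      exact ⟨z, Or.inl ⟨hsub z ⟨hz.1.le, hz.2.le⟩, hz0⟩, hz.1, hz.2⟩
    rcases abs_eq hc.le |>.1 hx0 with h1 | h1 <;> rcases abs_eq hc.le |>.1 hy0 with h2 | h2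
    · exact case1 (by rw [h1, h2])
    · have : (0 : ℝ) ∈ Ioo (h y) (h x) := by rw [h1, h2]; constructor <;> linarith
      obtain ⟨z, hz, hz0⟩ := intermediate_value_Ioo' hxy.le hcont this
      exact ⟨z, Or.inr ⟨hsub z ⟨hz.1.le, hz.2.le⟩, hz0⟩, hz.1, hz.2⟩
    · have : (0 : ℝ) ∈ Ioo (h x) (h y) := by rw [h1, h2]; constructor <;> linarith
      obtain ⟨z, hz, hz0⟩ := intermediate_value_Ioo hxy.le hcont this
      exact ⟨z, Or.inr ⟨hsub z ⟨hz.1.le, hz.2.le⟩, hz0⟩, hz.1, hz.2⟩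
    · exact case1 (by rw [h1, h2])
  refine h1.trans ?_
  gcongr
  rw [show {x | (x ∈ Ioo a b ∧ h' x = 0) ∨ (x ∈ Ioo a b ∧ h x = 0)} =
    {x | x ∈ Ioo a b ∧ h' x = 0} ∪ {x | x ∈ Ioo a b ∧ h x = 0} from rfl]
  exact Set.encard_union_le _ _

/-- a function whose derivative is positive at each of its zeros has at most one zero -/
theorem cross_lt {f f' : ℝ → ℝ} {a b : ℝ}
    (hf : ∀ x ∈ Ioo a b, HasDerivAt f (f' x) x)
    (hp : ∀ x ∈ Ioo a b, f x = 0 → 0 < f' x) {x y : ℝ} (hx : x ∈ Ioo a b) (hy : y ∈ Ioo a b)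
    (hx0 : f x = 0) (hy0 : f y = 0) (hxy : x < y) : False := by
  have hsub : ∀ t ∈ Icc x y, t ∈ Ioo a b := fun t ht => ⟨hx.1.trans_le ht.1, ht.2.trans_lt hy.2⟩
  have hcont : ContinuousOn f (Icc x y) :=
    fun t ht => (hf t (hsub t ht)).continuousAt.continuousWithinAt
  -- f is positive just after x
  have h1 : ∀ᶠ t in nhdsWithin x (Ioi x), 0 < f t := by
    have h2 : Filter.Tendsto (slope f x) (nhdsWithin x (Ioi x)) (nhds (f' x)) :=
      (hasDerivAt_iff_tendsto_slope.1 (hf x hx)).mono_left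
        (nhdsWithin_mono x (fun t (ht : x < t) => ht.ne'))
    have h3 := h2.eventually (lt_mem_nhds (hp x hx hx0))
    filter_upwards [h3, self_mem_nhdsWithin] with t ht hxt
    have hxt' : 0 < t - x := sub_pos.2 hxt
    rw [slope_def_field, hx0, sub_zero] at ht
    have := mul_pos ht hxt'
    rwa [div_mul_cancel₀ _ hxt'.ne'] at this
  obtain ⟨u, hu, hux⟩ := (mem_nhdsGT_iff_exists_Ioo_subset.1 h1)
  set w := min ((x + u) / 2) ((x + y) / 2) with hw
  have hu' : x < u := hu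
  have hxw : x < w := by rw [hw]; apply lt_min <;> linarith
  have hwu : w < u := (min_le_left _ _).trans_lt (by linarith)
  have hwy : w < y := (min_le_right _ _).trans_lt (by linarith)
  -- first zero after w
  set Z : Set ℝ := {t | t ∈ Icc w y ∧ f t = 0} with hZ
  have hZc : IsCompact Z := by
    have hcl : IsClosed Z := by
      have hc2 : ContinuousOn f (Icc w y) := hcont.mono (Icc_subset_Icc hxw.le le_rfl)
      have := hc2.preimage_isClosed_of_isClosed isClosed_Icc (isClosed_singleton (x := (0 : ℝ)))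
      exact this
    exact isCompact_Icc.of_isClosed_subset hcl (fun t ht => ht.1)
  have hZn : Z.Nonempty := ⟨y, ⟨hwy.le, le_rfl⟩, hy0⟩
  obtain ⟨z, hzZ, hzmin⟩ := hZc.exists_isLeast hZn
  have hfw : 0 < f w := hux ⟨hxw, hwu⟩
  have hwz : w < z := by
    rcases lt_or_eq_of_le hzZ.1.1 with h | h
    · exact h
    · exfalso
      rw [h, hzZ.2] at hfw
      exact lt_irrefl _ hfw
  have hz : z ∈ Ioo a b := hsub z ⟨(hxw.trans hwz).le, hzZ.1.2⟩
  have hpos : ∀ t ∈ Ico w z, 0 < f t := by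
    intro t ht
    by_contra hneg
    push Not at hneg
    have : (0 : ℝ) ∈ Icc (f t) (f w) := ⟨hneg, hfw.le⟩
    obtain ⟨s, hs, hs0⟩ := intermediate_value_Icc' ht.1
      (hcont.mono (Icc_subset_Icc hxw.le (ht.2.le.trans hzZ.1.2))) this
    have := hzmin ⟨⟨hs.1, hs.2.trans (ht.2.le.trans hzZ.1.2)⟩, hs0⟩
    exact absurd (this.trans hs.2) (not_le.2 ht.2)
  -- derivative at z is nonpositive
  have h4 : Filter.Tendsto (slope f z) (nhdsWithin z (Iio z)) (nhds (f' z)) :=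
    (hasDerivAt_iff_tendsto_slope.1 (hf z hz)).mono_left
      (nhdsWithin_mono z (fun t (ht : t < z) => ht.ne))
  have h5 : ∀ᶠ t in nhdsWithin z (Iio z), slope f z t ≤ 0 := by
    filter_upwards [Ico_mem_nhdsLT hwz] with t ht
    rw [slope_def_field, hzZ.2, sub_zero]
    exact div_nonpos_of_nonneg_of_nonpos (hpos t ht).le (by linarith [ht.2])
  have h6 : f' z ≤ 0 := le_of_tendsto h4 h5
  exact absurd (hp z hz hzZ.2) (not_lt.2 h6)

theorem cross_enc {f f' : ℝ → ℝ} {a b : ℝ}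
    (hf : ∀ x ∈ Ioo a b, HasDerivAt f (f' x) x)
    (hp : ∀ x ∈ Ioo a b, f x = 0 → 0 < f' x) :
    {x | x ∈ Ioo a b ∧ f x = 0}.encard ≤ 1 := by
  rw [Set.encard_le_one_iff]
  rintro x y ⟨hx, hx0⟩ ⟨hy, hy0⟩
  rcases lt_trichotomy x y with h | h | h
  · exact (cross_lt hf hp hx hy hx0 hy0 h).elim
  · exact h
  · exact (cross_lt hf hp hy hx hy0 hx0 h).elim

end Pool.Agent.Q262.CE
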