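import Mathlib

set_option autoImplicit false

namespace Pool.Agent.Q262.CE

open Real Set

/-- the squared cosine of the latitude -/
noncomputable def T (g o v : ℝ) : ℝ := 1 - g * sin (v + o) ^ 2

noncomputable def q (e v : ℝ) : ℝ := 1 + e * cos v

noncomputable def m (e g o v : ℝ) : ℝ :=
  e * sin v * T g o v - g * q e v * (sin (v + o) * cos (v + o))

noncomputable def H (e g o v : ℝ) : ℝ := q e v * m e g o v / (sin v * √(T g o v))

noncomputable def ka (e v : ℝ) : ℝ := e * sin v / q e v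

noncomputable def L (e v : ℝ) : ℝ := cos v / sin v + ka e v

noncomputable def be (o v : ℝ) : ℝ := sin (v + o) * cos (v + o)

noncomputable def ga (o v : ℝ) : ℝ := cos (v + o) ^ 2 - sin (v + o) ^ 2

noncomputable def Th (e g o v : ℝ) : ℝ :=
  ka e v ^ 2 * T g o v ^ 2 + g ^ 2 * be o v ^ 2 - g * T g o v * (be o v * L e v - ga o v)

noncomputable def Psi (e g o v : ℝ) : ℝ := q e v ^ 2 / sin v ^ 2 * Th e g o v

noncomputable def Up (e o v : ℝ) : ℝ :=
  be o v * L e v ^ 2 - L e v * ga o v - be o v * ka e v * L e v - be o v * ka e v ^ 2 - be o v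

noncomputable def Y (e o v : ℝ) : ℝ :=
  (1 + e ^ 2) * sin (2 * o) + e * (2 * sin v ^ 5 * cos (2 * o)
    + cos v * (2 * cos v ^ 4 - 5 * cos v ^ 2 + 5) * sin (2 * o))

lemma q_pos {e v : ℝ} (h0 : 0 < e) (h1 : e < 1) : 0 < q e v := by
  unfold q
  nlinarith [neg_one_le_cos v, cos_le_one v]

lemma hasDerivAt_T (g o v : ℝ) : HasDerivAt (T g o) (-(2 * g * be o v)) v := by
  have h := (((hasDerivAt_id v).add_const o).sin.pow 2).const_mul g
  have h2 := h.const_sub 1
  refine (h2.congr_deriv ?_)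
  simp only [be, id]
  ring

lemma hasDerivAt_q (e v : ℝ) : HasDerivAt (q e) (-(e * sin v)) v := by
  have h := ((hasDerivAt_cos v).const_mul e).const_add 1
  refine (h.congr_deriv ?_)
  ring

lemma hasDerivAt_be (o v : ℝ) : HasDerivAt (be o) (ga o v) v := by
  have h1 := ((hasDerivAt_id v).add_const o).sin
  have h2 := ((hasDerivAt_id v).add_const o).cos
  refine ((h1.mul h2).congr_deriv ?_)
  simp only [ga, id]
  ring

lemma hasDerivAt_ga (o v : ℝ) : HasDerivAt (ga o) (-(4 * be o v)) v := by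
  have h1 := ((hasDerivAt_id v).add_const o).sin.pow 2
  have h2 := ((hasDerivAt_id v).add_const o).cos.pow 2
  refine ((h2.sub h1).congr_deriv ?_)
  simp only [be, id]
  ring

lemma hasDerivAt_ka {e v : ℝ} (hq : q e v ≠ 0) (hs : sin v ≠ 0) :
    HasDerivAt (ka e) (ka e v * L e v) v := by
  have h := ((hasDerivAt_sin v).const_mul e).div (hasDerivAt_q e v) hq
  refine (h.congr_deriv ?_)
  simp only [L, ka]
  field_simp
  ring

lemma hasDerivAt_L {e v : ℝ} (hq : q e v ≠ 0) (hs : sin v ≠ 0) :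
    HasDerivAt (L e) (-1 - (L e v - ka e v) ^ 2 + ka e v * L e v) v := by
  have h1 := (hasDerivAt_cos v).div (hasDerivAt_sin v) hs
  have h := h1.add (hasDerivAt_ka hq hs)
  refine (h.congr_deriv ?_)
  have : L e v - ka e v = cos v / sin v := by simp [L]
  rw [this]
  field_simp

lemma hasDerivAt_Th {e g o v : ℝ} (hq : q e v ≠ 0) (hs : sin v ≠ 0) :
    HasDerivAt (Th e g o) (2 * L e v * Th e g o v + 3 * g * T g o v * Up e o v) v := by
  have hk := hasDerivAt_ka hq hs
  have hL := hasDerivAt_L hq hs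
  have hT := hasDerivAt_T g o v
  have hb := hasDerivAt_be o v
  have hg := hasDerivAt_ga o v
  have h := (((hk.pow 2).mul (hT.pow 2)).add ((hb.pow 2).const_mul (g ^ 2))).sub
    ((hT.const_mul g).mul ((hb.mul hL).sub hg))
  refine (h.congr_deriv ?_)
  simp only [Th, Up, Pi.pow_apply, Pi.sub_apply, Pi.mul_apply, Pi.add_apply, Pi.div_apply]
  push_cast
  ring

lemma hasDerivAt_Psi0 {e g o v : ℝ} (hq : q e v ≠ 0) (hs : sin v ≠ 0) :
    HasDerivAt (Psi e g o) (q e v ^ 2 / sin v ^ 2 * (3 * g * T g o v * Up e o v)) v := by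
  have h1 := ((hasDerivAt_q e v).pow 2).div ((hasDerivAt_sin v).pow 2) (pow_ne_zero 2 hs)
  have h := h1.mul (hasDerivAt_Th (g := g) (o := o) hq hs)
  refine (h.congr_deriv ?_)
  have hL : L e v = cos v / sin v + e * sin v / q e v := rfl
  simp only [Pi.pow_apply, Pi.sub_apply, Pi.mul_apply, Pi.add_apply, Pi.div_apply]
  rw [hL]
  field_simp
  ring

end Pool.Agent.Q262.CE
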