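import Pool.Agent.Q262.CE.Asm

set_option autoImplicit false

namespace Pool.Agent.Q262.CE

open Real Set

noncomputable def G (c₀ e o v : ℝ) : ℝ := c₀ * sin v + q e v * (sin (v + o) + e * sin o)

lemma G_neg (c₀ e o v : ℝ) : G c₀ e o (-v) = - G c₀ e (-o) v := by
  unfold G
  rw [q_neg, show -v + o = -(v + -o) by ring, sin_neg, sin_neg, sin_neg]
  ring

lemma G4 {c₀ e : ℝ} (o : ℝ) (he : 0 < e) :
    {v | v ∈ Ioc (-π) π ∧ G c₀ e o v = 0}.encard ≤ 4 := by
  have h := trig2 (e / 2 * sin o) (e / 2 * cos o) ((1 + e ^ 2) * sin o) (c₀ + cos o)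
    (3 * e / 2 * sin o) (by
      by_contra hcon
      push Not at hcon
      have h1 : sin o = 0 := by
        rcases mul_eq_zero.1 hcon.1 with h | h
        · exact absurd (by linarith) he.ne'
        · exact h
      have h2 : cos o = 0 := by
        rcases mul_eq_zero.1 hcon.2.1 with h | h
        · exact absurd (by linarith) he.ne'
        · exact h
      have h3 := sin_sq_add_cos_sq o
      rw [h1, h2] at h3
      norm_num at h3)
  have hG : ∀ v, G c₀ e o v = (e / 2 * sin o) * cos (2 * v) + (e / 2 * cos o) * sin (2 * v)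
      + ((1 + e ^ 2) * sin o) * cos v + (c₀ + cos o) * sin v + (3 * e / 2 * sin o) := by
    intro v
    have h1 : sin v ^ 2 + cos v ^ 2 = 1 := sin_sq_add_cos_sq v
    unfold G q
    rw [sin_add, sin_two_mul, cos_two_mul']
    linear_combination (e / 2 * sin o) * h1
  simpa only [hG] using h

lemma hasDerivAt_HH {c₀ e o v : ℝ} (hs : sin v ≠ 0) :
    HasDerivAt (fun v => -(q e v * (sin (v + o) + e * sin o)) / sin v - c₀)
      ((q e v ^ 2 * sin o + e * sin v ^ 2 * (sin (v + o) + e * sin o)) / sin v ^ 2) v := by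
  have h1 := ((hasDerivAt_id v).add_const o).sin.add_const (e * sin o)
  have h := ((((hasDerivAt_q e v).mul h1).neg).div (hasDerivAt_sin v) hs).sub_const c₀
  refine (h.congr_deriv ?_)
  simp only [Pi.mul_apply, Pi.neg_apply, id]
  congr 1
  clear h h1
  have h1 : sin v ^ 2 + cos v ^ 2 = 1 := sin_sq_add_cos_sq v
  unfold q
  rw [sin_add, cos_add]
  generalize sin v = s at *
  generalize cos v = c at *
  generalize sin o = S at *
  generalize cos o = C at *
  linear_combination (S + S * c * e) * h1

lemma num_eq (e o v : ℝ) : q e v ^ 2 * sin o + e * sin v ^ 2 * (sin (v + o) + e * sin o)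
    = sin o * ((1 - e) ^ 2 + e * (cos v + 1) ^ 2 * (2 - cos v)) + e * sin v ^ 3 * cos o := by
  have h1 : sin v ^ 2 + cos v ^ 2 = 1 := sin_sq_add_cos_sq v
  unfold q
  rw [sin_add]
  generalize sin v = s at *
  generalize cos v = c at *
  generalize sin o = S at *
  generalize cos o = C at *
  linear_combination (e * c * S + e ^ 2 * S) * h1

lemma Gup {c₀ e o : ℝ} (he : 0 < e) (he1 : e < 1) (hS : 0 ≤ sin o) (hC : 0 ≤ cos o) :
    {v | v ∈ Ioo (0 : ℝ) π ∧ G c₀ e o v = 0}.encard ≤ 1 := by
  have h1 := cross_enc (f := fun v => -(q e v * (sin (v + o) + e * sin o)) / sin v - c₀)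
    (f' := fun v => (q e v ^ 2 * sin o + e * sin v ^ 2 * (sin (v + o) + e * sin o)) / sin v ^ 2)
    (a := 0) (b := π) (fun x hx => hasDerivAt_HH (sin_pos_of hx).ne') (by
      intro x hx _
      have hs := sin_pos_of hx
      show 0 < (q e x ^ 2 * sin o + e * sin x ^ 2 * (sin (x + o) + e * sin o)) / sin x ^ 2
      rw [num_eq]
      have hc1 := cos_le_one x
      have h1 : 0 < (1 - e) ^ 2 + e * (cos x + 1) ^ 2 * (2 - cos x) := by
        have : 0 < (1 - e) ^ 2 := by
          have : 0 < 1 - e := by linarith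
          positivity
        have h2 : 0 ≤ e * (cos x + 1) ^ 2 * (2 - cos x) :=
          mul_nonneg (by positivity) (by linarith)
        linarith
      have h2 : 0 < sin o * ((1 - e) ^ 2 + e * (cos x + 1) ^ 2 * (2 - cos x))
          + e * sin x ^ 3 * cos o := by
        rcases hS.eq_or_lt with h3 | h3
        · have hC' : 0 < cos o := by
            rcases hC.eq_or_lt with h4 | h4
            · exfalso
              have := sin_sq_add_cos_sq o
              rw [← h3, ← h4] at this
              norm_num at this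
            · exact h4
          rw [← h3, zero_mul, zero_add]
          positivity
        · have h4 : 0 ≤ e * sin x ^ 3 * cos o := by positivity
          have := mul_pos h3 h1
          linarith
      positivity)
  refine (Set.encard_le_encard ?_).trans h1
  rintro v ⟨hv, h⟩
  refine ⟨hv, ?_⟩
  have hs := sin_pos_of hv
  unfold G at h
  have : q e v * (sin (v + o) + e * sin o) = -(c₀ * sin v) := by linarith
  show -(q e v * (sin (v + o) + e * sin o)) / sin v - c₀ = 0
  rw [this]
  field_simp
  ring

lemma Glow {c₀ e o : ℝ} (hc : 0 < c₀) (he : 0 < e) (he1 : e < 1) (hS : 0 ≤ sin o) :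
    {v | v ∈ Ioo (-π) 0 ∧ G c₀ e o v = 0}.encard ≤ 1 := by
  have hneg : ∀ x ∈ Ioo (-π) (0 : ℝ), sin x < 0 :=
    fun x hx => Real.sin_neg_of_neg_of_neg_pi_lt hx.2 hx.1
  have h1 := cross_enc (f := fun v => -(q e v * (sin (v + o) + e * sin o)) / sin v - c₀)
    (f' := fun v => (q e v ^ 2 * sin o + e * sin v ^ 2 * (sin (v + o) + e * sin o)) / sin v ^ 2)
    (a := -π) (b := 0) (fun x hx => hasDerivAt_HH (hneg x hx).ne) (by
      intro x hx h0
      have hs := hneg x hx
      have hq : 0 < q e x := q_pos he he1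
      have h0 : -(q e x * (sin (x + o) + e * sin o)) / sin x - c₀ = 0 := h0
      have h2 : q e x * (sin (x + o) + e * sin o) = -(c₀ * sin x) := by
        have h3 : -(q e x * (sin (x + o) + e * sin o)) / sin x = c₀ := by linarith
        rw [div_eq_iff hs.ne] at h3
        linarith
      have h3 : 0 < q e x * (sin (x + o) + e * sin o) := by
        rw [h2]
        have := mul_pos_of_neg_of_neg (neg_lt_zero.2 hc) hs
        linarith
      have h4 : 0 < sin (x + o) + e * sin o := by
        by_contra hcon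
        push Not at hcon
        have := mul_nonpos_of_nonneg_of_nonpos hq.le hcon
        linarith
      have h5 : 0 < sin x ^ 2 := by
        have := hs.ne
        positivity
      have h6 : 0 < e * sin x ^ 2 * (sin (x + o) + e * sin o) := by positivity
      have h7 : 0 ≤ q e x ^ 2 * sin o := by positivity
      exact div_pos (by linarith) h5)
  refine (Set.encard_le_encard ?_).trans h1
  rintro v ⟨hv, h⟩
  refine ⟨hv, ?_⟩
  have hs := hneg v hv
  unfold G at h
  have : q e v * (sin (v + o) + e * sin o) = -(c₀ * sin v) := by linarith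
  show -(q e v * (sin (v + o) + e * sin o)) / sin v - c₀ = 0
  rw [this]
  have := hs.ne
  field_simp
  ring

lemma G2 {c₀ e o : ℝ} (hc : 0 < c₀) (he : 0 < e) (he1 : e < 1) (hC : 0 ≤ cos o) :
    {v | v ∈ Ioc (-π) π ∧ G c₀ e o v = 0}.encard ≤ 2 := by
  have hpi := Real.pi_pos
  by_cases hS0 : sin o = 0
  · have hsub : {v | v ∈ Ioc (-π) π ∧ G c₀ e o v = 0} ⊆ ({0, π} : Set ℝ) := by
      rintro v ⟨hv, h⟩
      have hq : 0 < q e v := q_pos he he1
      have h1 : sin v * (c₀ + q e v * cos o) = 0 := by
        unfold G at h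
        rw [sin_add, hS0] at h
        linarith
      have h2 : 0 < c₀ + q e v * cos o := by positivity
      have h3 : sin v = 0 := (mul_eq_zero.1 h1).resolve_right h2.ne'
      rcases lt_trichotomy v 0 with h4 | h4 | h4
      · exact absurd h3 (Real.sin_neg_of_neg_of_neg_pi_lt h4 hv.1).ne
      · exact Or.inl h4
      · rcases lt_or_eq_of_le hv.2 with h5 | h5
        · exact absurd h3 (sin_pos_of ⟨h4, h5⟩).ne'
        · exact Or.inr h5
    refine (Set.encard_le_encard hsub).trans ?_
    rw [Set.encard_pair hpi.ne]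
  · have hsub : {v | v ∈ Ioc (-π) π ∧ G c₀ e o v = 0} ⊆
        {v | v ∈ Ioo (0 : ℝ) π ∧ G c₀ e o v = 0} ∪ {v | v ∈ Ioo (-π) 0 ∧ G c₀ e o v = 0} := by
      rintro v ⟨hv, h⟩
      rcases lt_trichotomy v 0 with h4 | h4 | h4
      · exact Or.inr ⟨⟨hv.1, h4⟩, h⟩
      · exfalso
        rw [h4] at h
        unfold G q at h
        simp at h
        rcases h with h | h
        · linarith
        · have : (1 + e) * sin o = 0 := by linarith
          rcases mul_eq_zero.1 this with h5 | h5
          · linarith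
          · exact hS0 h5
      · rcases lt_or_eq_of_le hv.2 with h5 | h5
        · exact Or.inl ⟨⟨h4, h5⟩, h⟩
        · exfalso
          rw [h5] at h
          unfold G q at h
          rw [sin_add] at h
          simp at h
          rcases h with h | h
          · linarith
          · have : (e - 1) * sin o = 0 := by linarith
            rcases mul_eq_zero.1 this with h5 | h5
            · linarith
            · exact hS0 h5
    refine (Set.encard_le_encard hsub).trans ((Set.encard_union_le _ _).trans ?_)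
    rcases lt_or_gt_of_ne hS0 with hS | hS
    · have h1 : {v | v ∈ Ioo (0 : ℝ) π ∧ G c₀ e o v = 0}.encard ≤ 1 := by
        refine (upper_le (R := fun v => G c₀ e (-o) v = 0) ?_).trans
          (Glow (o := -o) hc he he1 (by rw [sin_neg]; linarith))
        intro v hv
        rw [G_neg, neg_neg, hv, neg_zero]
      have h2 : {v | v ∈ Ioo (-π) 0 ∧ G c₀ e o v = 0}.encard ≤ 1 := by
        refine (lower_le (R := fun v => G c₀ e (-o) v = 0) ?_).trans
          (Gup (o := -o) he he1 (by rw [sin_neg]; linarith) (by rw [cos_neg]; exact hC))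
        intro v hv
        rw [G_neg, neg_neg, hv, neg_zero]
      exact (add_le_add h1 h2).trans (by norm_num)
    · exact (add_le_add (Gup he he1 hS.le hC) (Glow hc he he1 hS.le)).trans (by norm_num)

section
variable {e c₀ a₁ a₂ b₁ b₂ o : ℝ}

lemma sq1 {x : ℝ} (h : x ^ 2 = 1) : x = 1 ∨ x = -1 := by
  have h1 : (x - 1) * (x + 1) = 0 := by linear_combination h
  rcases mul_eq_zero.1 h1 with h | h
  · left; linarith
  · right; linarith

lemma angle_ext {v v' : ℝ} (hv : v ∈ Ioc (-π) π) (hv' : v' ∈ Ioc (-π) π)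
    (hc : cos v = cos v') (hs : sin v = sin v') : v = v' := by
  rw [← Complex.arg_cos_add_sin_mul_I hv, ← Complex.arg_cos_add_sin_mul_I hv',
    ← Complex.ofReal_cos, ← Complex.ofReal_sin, hc, hs, Complex.ofReal_cos, Complex.ofReal_sin]

theorem K_one (he : 0 < e) (he1 : e < 1) (hc : 0 < c₀)
    (hA : a₁ ^ 2 + a₂ ^ 2 = 1 - sin o ^ 2)
    (hB : b₁ ^ 2 + b₂ ^ 2 = 1 - cos o ^ 2) (hAB : a₁ * b₁ + a₂ * b₂ = -(sin o * cos o)) :
    {x | KP e c₀ a₁ a₂ b₁ b₂ x}.encard ≤ 10 := by
  have hso : sin o ^ 2 + cos o ^ 2 = 1 := sin_sq_add_cos_sq o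
  -- the direction of the intersection line
  set d₁ := cos o * a₁ - sin o * b₁ with hd1
  set d₂ := cos o * a₂ - sin o * b₂ with hd2
  have hz : (sin o * a₁ + cos o * b₁) ^ 2 + (sin o * a₂ + cos o * b₂) ^ 2 = 0 := by
    linear_combination (sin o ^ 2) * hA + (cos o ^ 2) * hB + (2 * sin o * cos o) * hAB
      + (-(cos o ^ 2 + sin o ^ 2)) * hso
  have hz1 : sin o * a₁ + cos o * b₁ = 0 := by
    have h1 := sq_nonneg (sin o * a₁ + cos o * b₁)
    have h2 := sq_nonneg (sin o * a₂ + cos o * b₂)
    exact pow_eq_zero_iff (two_ne_zero) |>.1 (by linarith)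
  have hz2 : sin o * a₂ + cos o * b₂ = 0 := by
    have h1 := sq_nonneg (sin o * a₁ + cos o * b₁)
    have h2 := sq_nonneg (sin o * a₂ + cos o * b₂)
    exact pow_eq_zero_iff (two_ne_zero) |>.1 (by linarith)
  have hdd : d₁ ^ 2 + d₂ ^ 2 = 1 := by
    rw [hd1, hd2]
    linear_combination (cos o ^ 2) * hA + (sin o ^ 2) * hB - (2 * sin o * cos o) * hAB + hso
  have ha1 : a₁ = cos o * d₁ := by rw [hd1]; linear_combination (sin o) * hz1 - a₁ * hso
  have ha2 : a₂ = cos o * d₂ := by rw [hd2]; linear_combination (sin o) * hz2 - a₂ * hso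
  have hb1 : b₁ = -(sin o * d₁) := by rw [hd1]; linear_combination (cos o) * hz1 - b₁ * hso
  have hb2 : b₂ = -(sin o * d₂) := by rw [hd2]; linear_combination (cos o) * hz2 - b₂ * hso
  clear_value d₁ d₂
  subst ha1 ha2 hb1 hb2
  have hP1 : ∀ v c s : ℝ, KP e c₀ (cos o * d₁) (cos o * d₂) (-(sin o * d₁)) (-(sin o * d₂)) (v, c, s)
      → cos (v + o) * (d₁ * s - d₂ * c) = 0 := by
    rintro v c s ⟨-, -, h, -⟩
    simp only at h
    rw [cos_add]
    linear_combination h
  have hP2 : ∀ v c s : ℝ, KP e c₀ (cos o * d₁) (cos o * d₂) (-(sin o * d₁)) (-(sin o * d₂)) (v, c, s)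
      → c₀ * sin v = -(q e v * (sin (v + o) + e * sin o) * (c * d₁ + s * d₂)) := by
    rintro v c s ⟨-, -, -, h⟩
    simp only at h
    rw [sin_add]
    linear_combination h
  have hsub : {x | KP e c₀ (cos o * d₁) (cos o * d₂) (-(sin o * d₁)) (-(sin o * d₂)) x} ⊆
      ({x | KP e c₀ (cos o * d₁) (cos o * d₂) (-(sin o * d₁)) (-(sin o * d₂)) x ∧
          x.2 = (d₁, d₂)} ∪
        {x | KP e c₀ (cos o * d₁) (cos o * d₂) (-(sin o * d₁)) (-(sin o * d₂)) x ∧
          x.2 = (-d₁, -d₂)}) ∪
        {x | KP e c₀ (cos o * d₁) (cos o * d₂) (-(sin o * d₁)) (-(sin o * d₂)) x ∧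
          cos (x.1 + o) = 0} := by
    rintro ⟨v, c, s⟩ hK
    have h1 := hP1 v c s hK
    have hcs : c ^ 2 + s ^ 2 = 1 := hK.2.1
    rcases mul_eq_zero.1 h1 with h | h
    · exact Or.inr ⟨hK, h⟩
    · left
      have h2 : (c * d₁ + s * d₂) ^ 2 = 1 := by
        linear_combination (c ^ 2 + s ^ 2) * hdd + hcs - (d₁ * s - d₂ * c) * h
      have e1 : c = (c * d₁ + s * d₂) * d₁ := by
        linear_combination (-c) * hdd - d₂ * h
      have e2 : s = (c * d₁ + s * d₂) * d₂ := by
        linear_combination (-s) * hdd + d₁ * h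
      rcases sq1 h2 with h3 | h3
      · left
        refine ⟨hK, ?_⟩
        rw [h3, one_mul] at e1 e2
        exact Prod.ext e1 e2
      · right
        refine ⟨hK, ?_⟩
        rw [h3] at e1 e2
        exact Prod.ext (by linarith) (by linarith)
  have n1 : {x | KP e c₀ (cos o * d₁) (cos o * d₂) (-(sin o * d₁)) (-(sin o * d₂)) x ∧
          x.2 = (d₁, d₂)}.encard ≤ {v | v ∈ Ioc (-π) π ∧ G c₀ e o v = 0}.encard := by
    apply Set.encard_le_encard_of_injOn (f := fun x : ℝ × ℝ × ℝ => x.1)
    · rintro ⟨v, c, s⟩ ⟨hK, h⟩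
      obtain ⟨rfl, rfl⟩ := Prod.mk.inj h
      refine ⟨hK.1, ?_⟩
      have h2 := hP2 _ _ _ hK
      show G c₀ e o v = 0
      unfold G
      linear_combination h2 - q e v * (sin (v + o) + e * sin o) * hdd
    · rintro ⟨v, c, s⟩ ⟨hK, h⟩ ⟨v', c', s'⟩ ⟨hK', h'⟩ hvv
      exact Prod.ext hvv (h.trans h'.symm)
  have n2 : {x | KP e c₀ (cos o * d₁) (cos o * d₂) (-(sin o * d₁)) (-(sin o * d₂)) x ∧
          x.2 = (-d₁, -d₂)}.encard ≤ {v | v ∈ Ioc (-π) π ∧ G c₀ e (o + π) v = 0}.encard := by
    apply Set.encard_le_encard_of_injOn (f := fun x : ℝ × ℝ × ℝ => x.1)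
    · rintro ⟨v, c, s⟩ ⟨hK, h⟩
      obtain ⟨rfl, rfl⟩ := Prod.mk.inj h
      refine ⟨hK.1, ?_⟩
      have h2 := hP2 _ _ _ hK
      show G c₀ e (o + π) v = 0
      unfold G
      rw [← add_assoc, sin_add_pi, sin_add_pi]
      linear_combination h2 + q e v * (sin (v + o) + e * sin o) * hdd
    · rintro ⟨v, c, s⟩ ⟨hK, h⟩ ⟨v', c', s'⟩ ⟨hK', h'⟩ hvv
      exact Prod.ext hvv (h.trans h'.symm)
  have n3 : {x | KP e c₀ (cos o * d₁) (cos o * d₂) (-(sin o * d₁)) (-(sin o * d₂)) x ∧
          cos (x.1 + o) = 0}.encard ≤ 4 := by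
    classical
    have h1 : {x | KP e c₀ (cos o * d₁) (cos o * d₂) (-(sin o * d₁)) (-(sin o * d₂)) x ∧
          cos (x.1 + o) = 0}.encard ≤ (univ : Set (Bool × Bool)).encard := by
      apply Set.encard_le_encard_of_injOn (f := fun x : ℝ × ℝ × ℝ =>
        (decide (0 < sin (x.1 + o)), decide (0 < x.2.1 * d₂ - x.2.2 * d₁)))
      · intro x _
        exact trivial
      · rintro ⟨v, c, s⟩ ⟨hK, h⟩ ⟨v', c', s'⟩ ⟨hK', h'⟩ hvv
        simp only [Prod.mk.injEq, decide_eq_decide] at hvv h h'
        obtain ⟨hs1, hs2⟩ := hvv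
        have k1 : sin (v + o) ^ 2 = 1 := by
          have := sin_sq_add_cos_sq (v + o)
          rw [h] at this
          linarith
        have k2 : sin (v' + o) ^ 2 = 1 := by
          have := sin_sq_add_cos_sq (v' + o)
          rw [h'] at this
          linarith
        have k3 : sin (v + o) = sin (v' + o) := by
          rcases sq1 k1 with h1 | h1 <;>
            rcases sq1 k2 with h2 | h2
          · rw [h1, h2]
          · exfalso
            rw [h1, h2] at hs1
            have := hs1.1 one_pos
            linarith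
          · exfalso
            rw [h1, h2] at hs1
            have := hs1.2 one_pos
            linarith
          · rw [h1, h2]
        have hv : v = v' := by
          apply angle_ext hK.1 hK'.1
          · have e1 : cos v = cos (v + o) * cos o + sin (v + o) * sin o := by
              rw [← cos_sub]; ring_nf
            have e2 : cos v' = cos (v' + o) * cos o + sin (v' + o) * sin o := by
              rw [← cos_sub]; ring_nf
            rw [e1, e2, h, h', k3]
          · have e1 : sin v = sin (v + o) * cos o - cos (v + o) * sin o := by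
              rw [← sin_sub]; ring_nf
            have e2 : sin v' = sin (v' + o) * cos o - cos (v' + o) * sin o := by
              rw [← sin_sub]; ring_nf
            rw [e1, e2, h, h', k3]
        subst hv
        have p1 := hP2 _ _ _ hK
        have p2 := hP2 _ _ _ hK'
        have hq : 0 < q e v := q_pos he he1
        have hne : q e v * (sin (v + o) + e * sin o) ≠ 0 := by
          apply mul_ne_zero hq.ne'
          intro h0
          have h5 : sin (v + o) = -(e * sin o) := by linarith
          rw [h5] at k1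
          have h6 : e ^ 2 * sin o ^ 2 = 1 := by linarith
          have h7 : sin o ^ 2 ≤ 1 := sin_sq_le_one o
          have h8 : e ^ 2 < 1 := by nlinarith
          nlinarith [sq_nonneg (sin o), sq_nonneg e]
        have hκ : c * d₁ + s * d₂ = c' * d₁ + s' * d₂ := by
          apply mul_left_cancel₀ hne
          linarith
        have hcs : c ^ 2 + s ^ 2 = 1 := hK.2.1
        have hcs' : c' ^ 2 + s' ^ 2 = 1 := hK'.2.1
        have hh : c * d₂ - s * d₁ = c' * d₂ - s' * d₁ := by
          have r1 : (c * d₁ + s * d₂) ^ 2 + (c * d₂ - s * d₁) ^ 2 = 1 := by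
            linear_combination (c ^ 2 + s ^ 2) * hdd + hcs
          have r2 : (c' * d₁ + s' * d₂) ^ 2 + (c' * d₂ - s' * d₁) ^ 2 = 1 := by
            linear_combination (c' ^ 2 + s' ^ 2) * hdd + hcs'
          rw [← hκ] at r2
          have r3 : (c * d₂ - s * d₁ - (c' * d₂ - s' * d₁))
              * (c * d₂ - s * d₁ + (c' * d₂ - s' * d₁)) = 0 := by linear_combination r1 - r2
          rcases mul_eq_zero.1 r3 with h6 | h6
          · linarith
          · rcases lt_trichotomy (c * d₂ - s * d₁) 0 with h7 | h7 | h7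
            · have : 0 < c' * d₂ - s' * d₁ := by linarith
              have := hs2.2 this
              linarith
            · linarith
            · have := hs2.1 h7
              linarith
        have hcc : c = c' := by
          have u1 : c = (c * d₁ + s * d₂) * d₁ + (c * d₂ - s * d₁) * d₂ := by
            linear_combination (-c) * hdd
          have u2 : c' = (c' * d₁ + s' * d₂) * d₁ + (c' * d₂ - s' * d₁) * d₂ := by
            linear_combination (-c') * hdd
          rw [u1, u2, hκ, hh]
        have hss : s = s' := by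
          have u1 : s = (c * d₁ + s * d₂) * d₂ - (c * d₂ - s * d₁) * d₁ := by
            linear_combination (-s) * hdd
          have u2 : s' = (c' * d₁ + s' * d₂) * d₂ - (c' * d₂ - s' * d₁) * d₁ := by
            linear_combination (-s') * hdd
          rw [u1, u2, hκ, hh]
        rw [hcc, hss]
    refine h1.trans ?_
    rw [Set.encard_univ]
    simp
  have n12 : {v | v ∈ Ioc (-π) π ∧ G c₀ e o v = 0}.encard
      + {v | v ∈ Ioc (-π) π ∧ G c₀ e (o + π) v = 0}.encard ≤ 6 := by
    rcases le_total 0 (cos o) with hC | hC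
    · exact (add_le_add (G2 hc he he1 hC) (G4 _ he)).trans (by norm_num)
    · exact (add_le_add (G4 _ he) (G2 hc he he1 (by rw [cos_add_pi]; linarith))).trans
        (by norm_num)
  refine (Set.encard_le_encard hsub).trans ((Set.encard_union_le _ _).trans
    ((add_le_add_left (Set.encard_union_le _ _) _).trans ?_))
  exact (add_le_add ((add_le_add n1 n2).trans n12) n3).trans (by norm_num)

end

end Pool.Agent.Q262.CE
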