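import Pool.Agent.Q262.CE.Lt
import Pool.Agent.Q262.CE.One

set_option autoImplicit false

namespace Pool.Agent.Q262.CE

open Real Set

abbrev E3 := EuclideanSpace ℝ (Fin 3)

/-- a unit normal of the plane of the circle, with Parseval's identity -/
lemma exists_normal {u w : E3} (hu : ‖u‖ = 1) (hw : ‖w‖ = 1) (huw : inner ℝ u w = 0) :
    ∃ n : E3, ‖n‖ = 1 ∧ ∀ x y : E3, inner ℝ x y = inner ℝ x u * inner ℝ y u
      + inner ℝ x w * inner ℝ y w + inner ℝ x n * inner ℝ y n := by
  classical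
  have hv : Orthonormal ℝ ((↑) : ({u, w} : Set E3) → E3) := by
    have hne : u ≠ w := by
      intro h
      rw [h, real_inner_self_eq_norm_sq, hw] at huw
      norm_num at huw
    constructor
    · rintro ⟨x, hx | hx⟩
      · simpa [hx] using hu
      · simp only [mem_singleton_iff] at hx
        simpa [hx] using hw
    · rintro ⟨x, hx | hx⟩ ⟨y, hy | hy⟩ hxy
      · exact absurd (Subtype.ext (hx.trans hy.symm)) hxy
      · simp only [mem_singleton_iff] at hy
        simp only [hx, hy]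
        exact huw
      · simp only [mem_singleton_iff] at hx
        simp only [hx, hy]
        rw [real_inner_comm]
        exact huw
      · exact absurd (Subtype.ext ((mem_singleton_iff.1 hx).trans (mem_singleton_iff.1 hy).symm)) hxy
  have hfr : Module.finrank ℝ E3 = 3 := by simp
  -- orthogonal complement of the span is nonzero
  set V : Submodule ℝ E3 := Submodule.span ℝ ({u, w} : Set E3) with hV
  have hVr : Module.finrank ℝ V ≤ 2 := by
    have h1 := finrank_span_le_card (R := ℝ) ({u, w} : Set E3)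
    refine h1.trans ?_
    rw [Set.toFinset_card]
    have : Fintype.card ({u, w} : Set E3) ≤ 2 := by
      rw [← Set.toFinset_card]
      simp only [Set.toFinset_insert, Set.toFinset_singleton]
      exact Finset.card_le_two
    exact this
  have hperp : Vᗮ ≠ ⊥ := by
    intro h0
    have h1 := Submodule.finrank_add_finrank_orthogonal V
    rw [h0, finrank_bot, hfr] at h1
    omega
  obtain ⟨n0, hn0, hn0'⟩ := Submodule.exists_mem_ne_zero_of_ne_bot hperp
  have hn0n : ‖n0‖ ≠ 0 := norm_ne_zero_iff.2 hn0'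
  set n : E3 := (‖n0‖⁻¹) • n0 with hn
  have hn1 : ‖n‖ = 1 := by
    rw [hn, norm_smul, norm_inv, norm_norm, inv_mul_cancel₀ hn0n]
  have hnV : n ∈ Vᗮ := Submodule.smul_mem _ _ hn0
  have hun : inner ℝ u n = 0 :=
    (Submodule.mem_orthogonal V n).1 hnV u (Submodule.subset_span (by simp))
  have hwn : inner ℝ w n = 0 :=
    (Submodule.mem_orthogonal V n).1 hnV w (Submodule.subset_span (by simp))
  have hB : Orthonormal ℝ ![u, w, n] := by
    constructor
    · intro i
      fin_cases i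
      · exact hu
      · exact hw
      · exact hn1
    · intro i j hij
      fin_cases i <;> fin_cases j
      · exact absurd rfl hij
      · exact huw
      · exact hun
      · rw [real_inner_comm]; exact huw
      · exact absurd rfl hij
      · exact hwn
      · rw [real_inner_comm]; exact hun
      · rw [real_inner_comm]; exact hwn
      · exact absurd rfl hij
  have hcard : Fintype.card (Fin 3) = Module.finrank ℝ E3 := by simp
  have hspan : ⊤ ≤ Submodule.span ℝ (Set.range ![u, w, n]) := by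
    have := (basisOfOrthonormalOfCardEqFinrank hB hcard).span_eq
    rw [coe_basisOfOrthonormalOfCardEqFinrank] at this
    exact this.ge
  refine ⟨n, hn1, fun x y => ?_⟩
  have h := (OrthonormalBasis.mk hB hspan).sum_inner_mul_inner x y
  rw [Fin.sum_univ_three] at h
  simp only [OrthonormalBasis.coe_mk] at h
  have e0 : (![u, w, n] : Fin 3 → E3) 0 = u := rfl
  have e1 : (![u, w, n] : Fin 3 → E3) 1 = w := rfl
  have e2 : (![u, w, n] : Fin 3 → E3) 2 = n := rfl
  rw [e0, e1, e2, real_inner_comm y u, real_inner_comm y w, real_inner_comm y n] at h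
  linarith

lemma vdata {e : ℝ} (he : 0 < e) (he1 : e < 1) (s : ℝ) : ∃ v ∈ Ioc (-π) π,
    cos v * (1 + e * cos s) = -(e + cos s) ∧ sin v * (1 + e * cos s) = √(1 - e ^ 2) * sin s := by
  have hk : 0 < 1 + e * cos s := q_pos (v := s) he he1
  have hw : √(1 - e ^ 2) ^ 2 = 1 - e ^ 2 := Real.sq_sqrt (by nlinarith)
  have hsc : sin s ^ 2 + cos s ^ 2 = 1 := sin_sq_add_cos_sq s
  set C : ℝ := -(e + cos s) / (1 + e * cos s) with hC
  set S : ℝ := √(1 - e ^ 2) * sin s / (1 + e * cos s) with hS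
  have hCS : C ^ 2 + S ^ 2 = 1 := by
    rw [hC, hS, div_pow, div_pow, ← add_div, div_eq_one_iff_eq (by positivity)]
    linear_combination (sin s ^ 2) * hw + (1 - e ^ 2) * hsc
  set z : ℂ := ⟨C, S⟩ with hz
  have hzn : ‖z‖ = 1 := by
    have h1 : ‖z‖ ^ 2 = 1 := by
      rw [← Complex.normSq_eq_norm_sq, Complex.normSq_apply]
      simp only [hz]
      linarith
    rcases sq1 h1 with h | h
    · exact h
    · have := norm_nonneg z
      linarith
  refine ⟨Complex.arg z, Complex.arg_mem_Ioc z, ?_, ?_⟩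
  · have h1 := Complex.norm_mul_cos_arg z
    rw [hzn, one_mul] at h1
    rw [h1]
    simp only [hz, hC]
    field_simp
  · have h1 := Complex.norm_mul_sin_arg z
    rw [hzn, one_mul] at h1
    rw [h1]
    simp only [hz, hS]
    field_simp

lemma godata (n₁ n₂ : ℝ) : ∃ o : ℝ, n₁ ^ 2 = (n₁ ^ 2 + n₂ ^ 2) * sin o ^ 2 ∧
    n₂ ^ 2 = (n₁ ^ 2 + n₂ ^ 2) * cos o ^ 2 ∧ n₁ * n₂ = (n₁ ^ 2 + n₂ ^ 2) * sin o * cos o := by
  set z : ℂ := ⟨n₂, n₁⟩ with hz
  have h0 : ‖z‖ ^ 2 = n₁ ^ 2 + n₂ ^ 2 := by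
    rw [← Complex.normSq_eq_norm_sq, Complex.normSq_apply]
    simp only [hz]
    ring
  have h1 := Complex.norm_mul_cos_arg z
  have h2 := Complex.norm_mul_sin_arg z
  simp only [hz] at h1 h2
  rw [← hz] at h1 h2
  refine ⟨Complex.arg z, ?_, ?_, ?_⟩
  · rw [← h0]; nth_rewrite 1 [← h2]; ring
  · rw [← h0]; nth_rewrite 1 [← h1]; ring
  · rw [← h0]; nth_rewrite 1 [← h1]; nth_rewrite 1 [← h2]; ring

/-- the number of stationary pairs of the squared distance of an ellipse and a circle centred at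
one of its foci is at most ten -/
theorem main (F u₁ w₁ u₂ w₂ : E3) (a e r : ℝ) (P P' Q Q' : ℝ → E3)
    (ha : 0 < a) (he : 0 < e) (he1 : e < 1) (hr : 0 < r)
    (hu₁ : ‖u₁‖ = 1) (hw₁ : ‖w₁‖ = 1) (h₁ : inner ℝ u₁ w₁ = 0)
    (hu₂ : ‖u₂‖ = 1) (hw₂ : ‖w₂‖ = 1) (h₂ : inner ℝ u₂ w₂ = 0)
    (hP : ∀ s : ℝ, P s = F + (a * (e + Real.cos s)) • u₁
      + (a * Real.sqrt (1 - e ^ 2) * Real.sin s) • w₁)
    (hP' : ∀ s : ℝ, P' s = (-(a * Real.sin s)) • u₁
      + (a * Real.sqrt (1 - e ^ 2) * Real.cos s) • w₁)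
    (hQ : ∀ t : ℝ, Q t = F + (r * Real.cos t) • u₂ + (r * Real.sin t) • w₂)
    (hQ' : ∀ t : ℝ, Q' t = (-(r * Real.sin t)) • u₂ + (r * Real.cos t) • w₂) :
    ({x : E3 × E3 | ∃ s t : ℝ, x = (P s, Q t) ∧ inner ℝ (P s - Q t) (P' s) = 0 ∧
        inner ℝ (P s - Q t) (Q' t) = 0}).encard ≤ 10 := by
  obtain ⟨n, hn, hpars⟩ := exists_normal hu₂ hw₂ h₂
  set p₁ : ℝ := inner ℝ u₁ u₂ with hp1
  set p₂ : ℝ := inner ℝ u₁ w₂ with hp2
  set b₁ : ℝ := inner ℝ w₁ u₂ with hb1
  set b₂ : ℝ := inner ℝ w₁ w₂ with hb2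
  set n₁ : ℝ := inner ℝ u₁ n with hn1
  set n₂ : ℝ := inner ℝ w₁ n with hn2
  have k1 : p₁ ^ 2 + p₂ ^ 2 = 1 - n₁ ^ 2 := by
    have := hpars u₁ u₁
    rw [real_inner_self_eq_norm_sq, hu₁] at this
    linarith
  have k2 : b₁ ^ 2 + b₂ ^ 2 = 1 - n₂ ^ 2 := by
    have := hpars w₁ w₁
    rw [real_inner_self_eq_norm_sq, hw₁] at this
    linarith
  have k3 : p₁ * b₁ + p₂ * b₂ = -(n₁ * n₂) := by
    have := hpars u₁ w₁
    rw [h₁] at this
    linarith
  have k4 : n₁ ^ 2 + n₂ ^ 2 ≤ 1 := by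
    have h := real_inner_self_nonneg (x := n - n₁ • u₁ - n₂ • w₁)
    have c1 : inner ℝ n u₁ = n₁ := by rw [real_inner_comm]
    have c2 : inner ℝ n w₁ = n₂ := by rw [real_inner_comm]
    have c3 : inner ℝ w₁ u₁ = 0 := by rw [real_inner_comm]; exact h₁
    have c4 : inner ℝ n n = (1 : ℝ) := by rw [real_inner_self_eq_norm_sq, hn, one_pow]
    have c5 : inner ℝ u₁ u₁ = (1 : ℝ) := by rw [real_inner_self_eq_norm_sq, hu₁, one_pow]
    have c6 : inner ℝ w₁ w₁ = (1 : ℝ) := by rw [real_inner_self_eq_norm_sq, hw₁, one_pow]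
    have e1 : inner ℝ (n - n₁ • u₁ - n₂ • w₁) (n - n₁ • u₁ - n₂ • w₁)
        = 1 - n₁ ^ 2 - n₂ ^ 2 := by
      simp only [inner_sub_left, inner_sub_right, real_inner_smul_left, real_inner_smul_right,
        c4, c5, c6, h₁, c1, c2, c3, ← hn1, ← hn2]
      ring
    rw [e1] at h
    linarith
  obtain ⟨o, ho1, ho2, ho3⟩ := godata (-n₁) n₂
  rw [neg_sq] at ho1 ho2 ho3
  set g : ℝ := n₁ ^ 2 + n₂ ^ 2 with hg
  have hg0 : 0 ≤ g := by positivity
  set c₀ : ℝ := e * (a * (1 - e ^ 2)) / r with hc0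
  have he2 : 0 < 1 - e ^ 2 := by nlinarith
  have hc : 0 < c₀ := by positivity
  have hA : (-p₁) ^ 2 + (-p₂) ^ 2 = 1 - g * sin o ^ 2 := by linarith [neg_sq p₁, neg_sq p₂]
  have hB : b₁ ^ 2 + b₂ ^ 2 = 1 - g * cos o ^ 2 := by linarith
  have hAB : (-p₁) * b₁ + (-p₂) * b₂ = -(g * sin o * cos o) := by
    rw [← ho3]
    linarith
  have hK : {x | KP e c₀ (-p₁) (-p₂) b₁ b₂ x}.encard ≤ 10 := by
    rcases lt_or_eq_of_le k4 with h | h
    · exact K_lt he he1 hg0 h hc hA hB hAB
    · rw [h] at hA hB hAB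
      simp only [one_mul] at hA hB hAB
      exact K_one he he1 hc hA hB hAB
  refine le_trans ?_ hK
  -- the solutions are images of the zeros of the reduced system
  have hsub : {x : E3 × E3 | ∃ s t : ℝ, x = (P s, Q t) ∧ inner ℝ (P s - Q t) (P' s) = 0 ∧
        inner ℝ (P s - Q t) (Q' t) = 0} ⊆
      (fun x : ℝ × ℝ × ℝ => ((F + (a * (1 - e ^ 2) / q e x.1 * (-cos x.1)) • u₁
        + (a * (1 - e ^ 2) / q e x.1 * sin x.1) • w₁,
        F + (r * x.2.1) • u₂ + (r * x.2.2) • w₂) : E3 × E3)) ''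
      {x | KP e c₀ (-p₁) (-p₂) b₁ b₂ x} := by
    rintro x ⟨s, t, hx, hE1, hE2⟩
    obtain ⟨v, hv, hv1, hv2⟩ := vdata he he1 s
    have hk : 0 < 1 + e * cos s := q_pos (v := s) he he1
    have hw : √(1 - e ^ 2) ^ 2 = 1 - e ^ 2 := Real.sq_sqrt he2.le
    have hw0 : 0 < √(1 - e ^ 2) := Real.sqrt_pos.2 he2
    set w : ℝ := √(1 - e ^ 2) with hwdef
    have hqv : q e v * (1 + e * cos s) = 1 - e ^ 2 := by
      unfold q
      linear_combination e * hv1
    have hq : 0 < q e v := q_pos he he1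
    refine ⟨(v, cos t, sin t), ⟨hv, ?_, ?_, ?_⟩, ?_⟩
    · exact (add_comm _ _).trans (sin_sq_add_cos_sq t)
    · -- second equation
      simp only
      rw [hP, hQ, hQ'] at hE2
      have i1 : inner ℝ u₂ w₂ = 0 := h₂
      have i2 : inner ℝ w₂ u₂ = 0 := by rw [real_inner_comm]; exact h₂
      have hE : F + (a * (e + cos s)) • u₁ + (a * w * sin s) • w₁
          - (F + (r * cos t) • u₂ + (r * sin t) • w₂)
          = (a * (e + cos s)) • u₁ + (a * w * sin s) • w₁ - (r * cos t) • u₂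
            - (r * sin t) • w₂ := by abel
      rw [hE] at hE2
      simp only [inner_sub_left, inner_add_left, inner_add_right, real_inner_smul_left,
        real_inner_smul_right, real_inner_self_eq_norm_sq, hu₂, hw₂, i1, i2, ← hp1, ← hp2,
        ← hb1, ← hb2] at hE2
      have h5 : (r * a * (1 + e * cos s)) * ((-p₁ * cos v + b₁ * sin v) * sin t)
          = (r * a * (1 + e * cos s)) * ((-p₂ * cos v + b₂ * sin v) * cos t) := by
        linear_combination (-1 : ℝ) * hE2 + (r * a * sin t * (-p₁)) * hv1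
          + (r * a * sin t * b₁) * hv2 - (r * a * cos t * (-p₂)) * hv1
          - (r * a * cos t * b₂) * hv2
      exact mul_left_cancel₀ (by positivity) h5
    · simp only
      rw [hP, hQ, hP'] at hE1
      have j1 : inner ℝ w₁ u₁ = 0 := by rw [real_inner_comm]; exact h₁
      have j2 : inner ℝ u₂ u₁ = p₁ := by rw [real_inner_comm]
      have j3 : inner ℝ w₂ u₁ = p₂ := by rw [real_inner_comm]
      have j4 : inner ℝ u₂ w₁ = b₁ := by rw [real_inner_comm]
      have j5 : inner ℝ w₂ w₁ = b₂ := by rw [real_inner_comm]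
      have hE : F + (a * (e + cos s)) • u₁ + (a * w * sin s) • w₁
          - (F + (r * cos t) • u₂ + (r * sin t) • w₂)
          = (a * (e + cos s)) • u₁ + (a * w * sin s) • w₁ - (r * cos t) • u₂
            - (r * sin t) • w₂ := by abel
      rw [hE] at hE1
      simp only [inner_sub_left, inner_add_left, inner_add_right, real_inner_smul_left,
        real_inner_smul_right, real_inner_self_eq_norm_sq, hu₁, hw₁, h₁, j1, j2, j3, j4, j5]
        at hE1
      have h6 : a * e * sin s * (1 + e * cos s) = r * (cos t * (p₁ * sin s - w * cos s * b₁)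
          + sin t * (p₂ * sin s - w * cos s * b₂)) := by
        apply mul_left_cancel₀ ha.ne'
        linear_combination (-1 : ℝ) * hE1 + (a ^ 2 * sin s * cos s) * hw
      have hrc : r * c₀ = e * a * (1 - e ^ 2) := by
        rw [hc0]
        field_simp
      have hv3 : (cos v + e) * (1 + e * cos s) = -((1 - e ^ 2) * cos s) := by
        linear_combination hv1
      have h7 : (r * (1 + e * cos s) ^ 2) * (c₀ * sin v) = (r * (1 + e * cos s) ^ 2) *
          (q e v * (cos t * (-(-p₁ * sin v) + (cos v + e) * b₁)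
            + sin t * (-(-p₂ * sin v) + (cos v + e) * b₂))) := by
        linear_combination ((1 + e * cos s) ^ 2 * sin v) * hrc
          + ((1 + e * cos s) * e * a * (1 - e ^ 2)) * hv2
          + ((1 - e ^ 2) * w) * h6
          - (r * (1 - e ^ 2) * cos s * (cos t * b₁ + sin t * b₂)) * hw
          - (r * (1 + e * cos s) * (cos t * (p₁ * sin v + (cos v + e) * b₁)
            + sin t * (p₂ * sin v + (cos v + e) * b₂))) * hqv
          - (r * (1 - e ^ 2) * (cos t * p₁ + sin t * p₂)) * hv2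
          - (r * (1 - e ^ 2) * (cos t * b₁ + sin t * b₂)) * hv3
      exact mul_left_cancel₀ (by positivity) h7
    · rw [hx]
      simp only
      have f1 : a * (1 - e ^ 2) / q e v * (-cos v) = a * (e + cos s) := by
        rw [← hqv]
        field_simp
        linear_combination (-1 : ℝ) * hv1
      have f2 : a * (1 - e ^ 2) / q e v * sin v = a * w * sin s := by
        rw [← hqv]
        field_simp
        linear_combination hv2
      rw [f1, f2, hP, hQ]
  exact (Set.encard_le_encard hsub).trans (Set.encard_image_le _ _)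

end Pool.Agent.Q262.CE
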