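import Pool.Agent.Q262.CE.Iden

set_option autoImplicit false

namespace Pool.Agent.Q262.CE

open Real Set

lemma hasDerivAt_m (e g o v : ℝ) : HasDerivAt (m e g o)
    (e * cos v * T g o v - e * sin v * g * be o v - g * q e v * ga o v) v := by
  have h := ((((hasDerivAt_sin v).const_mul e).mul (hasDerivAt_T g o v)).sub
    (((hasDerivAt_q e v).const_mul g).mul (hasDerivAt_be o v)))
  refine (h.congr_deriv ?_)
  ring

lemma hasDerivAt_H {e g o v : ℝ} (hq : q e v ≠ 0) (hs : sin v ≠ 0) (hT : 0 < T g o v) :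
    HasDerivAt (H e g o) (-(sin v * Psi e g o v) / (T g o v * √(T g o v))) v := by
  have hr : √(T g o v) ≠ 0 := (Real.sqrt_pos.2 hT).ne'
  have hr2 : √(T g o v) ^ 2 = T g o v := Real.sq_sqrt hT.le
  have h1 := (hasDerivAt_T g o v).sqrt hT.ne'
  have h := ((hasDerivAt_q e v).mul (hasDerivAt_m e g o v)).div
    ((hasDerivAt_sin v).mul h1) (mul_ne_zero hs hr)
  refine (h.congr_deriv ?_)
  have hbe : sin (v + o) * cos (v + o) = be o v := rfl
  simp only [Pi.mul_apply, Psi, Th, m, ka, L, hbe]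
  generalize hR : √(T g o v) = R at *
  rw [← hr2]
  field_simp
  ring

end Pool.Agent.Q262.CE
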