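import Pool.Agent.Q262.CE.Def

set_option autoImplicit false

namespace Pool.Agent.Q262.CE

open Real Set

lemma sin_two_o (o v : ℝ) :
    sin (2 * o) = 2 * be o v * (cos v ^ 2 - sin v ^ 2) - ga o v * (2 * sin v * cos v) := by
  have h : 2 * o = 2 * (v + o) - 2 * v := by ring
  rw [h, sin_sub, sin_two_mul, cos_two_mul' v, cos_two_mul' (v + o), sin_two_mul v]
  simp only [be, ga]
  ring

lemma cos_two_o (o v : ℝ) :
    cos (2 * o) = ga o v * (cos v ^ 2 - sin v ^ 2) + 2 * be o v * (2 * sin v * cos v) := by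
  have h : 2 * o = 2 * (v + o) - 2 * v := by ring
  rw [h, cos_sub, sin_two_mul, cos_two_mul' v, cos_two_mul' (v + o), sin_two_mul v]
  simp only [be, ga]
  ring

lemma Up_eq {e v : ℝ} (o : ℝ) (hq : q e v ≠ 0) (hs : sin v ≠ 0) :
    2 * sin v ^ 2 * q e v ^ 2 * Up e o v = Y e o v := by
  unfold Y
  rw [cos_two_o o v, sin_two_o o v]
  have h1 : sin v ^ 2 + cos v ^ 2 = 1 := sin_sq_add_cos_sq v
  have hqd : q e v = 1 + e * cos v := rfl
  have h2 : 2 * sin v ^ 2 * q e v ^ 2 * Up e o v =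
      2 * be o v * (cos v ^ 2 * q e v ^ 2 + e * cos v * sin v ^ 2 * q e v - e ^ 2 * sin v ^ 4
        - sin v ^ 2 * q e v ^ 2) - 2 * ga o v * sin v * q e v * (cos v * q e v + e * sin v ^ 2) := by
    simp only [Up, L, ka]
    field_simp
    ring
  rw [h2, hqd]
  generalize sin v = s at *
  generalize cos v = c at *
  generalize be o v = B at *
  generalize ga o v = G at *
  linear_combination (2*B*c^2*e^2 + 6*B*c^3*e + (-4)*B*c^5*e + (-2)*B*e^2*s^2 + 2*G*e*s^3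
    + 2*G*e*s^5 + (-8)*B*c*e*s^2 + (-8)*B*c*e*s^4 + 8*B*c^3*e*s^2 + (-2)*G*c*e^2*s
    + (-6)*G*c^2*e*s + (-4)*G*c^2*e*s^3 + 4*G*c^4*e*s) * h1

lemma hasDerivAt_Psi {e g o v : ℝ} (hq : q e v ≠ 0) (hs : sin v ≠ 0) :
    HasDerivAt (Psi e g o) (3 * g * T g o v / (2 * sin v ^ 4) * Y e o v) v := by
  refine (hasDerivAt_Psi0 hq hs).congr_deriv ?_
  rw [← Up_eq o hq hs]
  field_simp

lemma hasDerivAt_Y (e o v : ℝ) :
    HasDerivAt (Y e o) (5 * e * sin v ^ 3 * sin (2 * v + 2 * o)) v := by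
  have hs := hasDerivAt_sin v
  have hc := hasDerivAt_cos v
  have h := (((((hs.pow 5).const_mul 2).mul_const (cos (2 * o))).add
    ((hc.mul ((((hc.pow 4).const_mul 2).sub ((hc.pow 2).const_mul 5)).add_const 5)).mul_const
      (sin (2 * o)))).const_mul e).const_add ((1 + e ^ 2) * sin (2 * o))
  refine (h.congr_deriv ?_)
  have h1 : sin v ^ 2 + cos v ^ 2 = 1 := sin_sq_add_cos_sq v
  rw [sin_add, sin_two_mul v, cos_two_mul v]
  simp only [Pi.pow_apply, Pi.sub_apply]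
  push_cast
  generalize sin v = s at *
  generalize cos v = c at *
  generalize sin (2 * o) = S2 at *
  generalize cos (2 * o) = C2 at *
  linear_combination (5 * e * s * (1 - 2 * c ^ 2) * S2) * h1

lemma key {e g v : ℝ} (o : ℝ) (hq : q e v ≠ 0) (hs : sin v ≠ 0) :
    g * T g o v * Y e o v = g * q e v ^ 2 * T g o v * sin (2 * o)
      + 2 * e * sin v ^ 3 / q e v * (m e g o v ^ 2 - sin v ^ 2 * Psi e g o v) := by
  have h1 : sin v ^ 2 + cos v ^ 2 = 1 := sin_sq_add_cos_sq v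
  have hY : Y e o v = q e v ^ 2 * sin (2 * o) + 2 * e * sin v ^ 2 * (be o v * (cos v * q e v
      + e * sin v ^ 2) - ga o v * q e v * sin v) - 4 * e ^ 2 * sin v ^ 4 * be o v := by
    unfold Y
    rw [cos_two_o o v, sin_two_o o v]
    have hqd : q e v = 1 + e * cos v := rfl
    rw [hqd]
    generalize sin v = s at *
    generalize cos v = c at *
    generalize be o v = B at *
    generalize ga o v = G at *
    linear_combination ((-2)*B*c^2*e^2 + (-6)*B*c^3*e + 4*B*c^5*e + 2*B*e^2*s^2 + (-2)*G*e*s^3 + (-2)*G*e*s^5 + 8*B*c*e*s^2 + 8*B*c*e*s^4 + (-8)*B*c^3*e*s^2 + 2*G*c*e^2*s + 6*G*c^2*e*s + 4*G*c^2*e*s^3 + (-4)*G*c^4*e*s) * h1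
  have h3 : sin v ^ 2 * Psi e g o v = q e v ^ 2 * Th e g o v := by
    unfold Psi
    field_simp
  rw [h3, hY]
  simp only [m, Th, ka, L]
  have hbe : sin (v + o) * cos (v + o) = be o v := rfl
  rw [hbe]
  field_simp
  ring

end Pool.Agent.Q262.CE
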