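import Pool.Agent.Q262.CE.Asm

set_option autoImplicit false

namespace Pool.Agent.Q262.CE

open Real Set

section
variable {e c₀ a₁ a₂ b₁ b₂ g o : ℝ}

lemma Kgen (he : 0 < e) (he1 : e < 1) (hg : 0 ≤ g) (hg1 : g < 1) (hc : 0 < c₀)
    (hA : a₁ ^ 2 + a₂ ^ 2 = 1 - g * sin o ^ 2)
    (hB : b₁ ^ 2 + b₂ ^ 2 = 1 - g * cos o ^ 2) (hAB : a₁ * b₁ + a₂ * b₂ = -(g * sin o * cos o))
    (I : Set ℝ) (hI : ∀ v ∈ I, sin v ≠ 0) :
    {x | x.1 ∈ I ∧ KP e c₀ a₁ a₂ b₁ b₂ x}.encard ≤ {v | v ∈ I ∧ |H e g o v| = c₀}.encard := by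
  apply Set.encard_le_encard_of_injOn (f := fun x : ℝ × ℝ × ℝ => x.1)
  · rintro ⟨v, c, s⟩ ⟨hv, hK⟩
    refine ⟨hv, ?_⟩
    obtain ⟨k, -, -, h3, h4⟩ := KP_main hA hB hAB hK
    have hs := hI v hv
    simp only at hs ⊢
    have hT : 0 < T g o v := T_pos hg hg1
    have hr : 0 < √(T g o v) := Real.sqrt_pos.2 hT
    have hH : H e g o v = c₀ * (k / √(T g o v)) := by
      unfold H
      rw [← h4]
      field_simp
    have hk : |k| = √(T g o v) := by
      rw [← h3, Real.sqrt_sq_eq_abs]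
    rw [hH, abs_mul, abs_div, abs_of_pos hr, hk, div_self hr.ne', abs_of_pos hc, mul_one]
  · rintro ⟨v, c, s⟩ ⟨hv, hK⟩ ⟨v', c', s'⟩ ⟨hv', hK'⟩ hvv
    simp only at hvv
    subst hvv
    obtain ⟨k, h1, h2, h3, h4⟩ := KP_main hA hB hAB hK
    obtain ⟨k', h1', h2', h3', h4'⟩ := KP_main hA hB hAB hK'
    have hs := hI v hv
    have hT : 0 < T g o v := T_pos hg hg1
    have hkk : k = k' := by
      have h5 : (c₀ * sin v) * k = (c₀ * sin v) * k' := by linarith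
      exact mul_left_cancel₀ (mul_ne_zero hc.ne' hs) h5
    subst hkk
    have hk0 : k ≠ 0 := by
      intro h0
      rw [h0] at h3
      norm_num at h3
      exact hT.ne h3
    have hcc : c = c' := mul_left_cancel₀ hk0 (h1.trans h1'.symm)
    have hss : s = s' := mul_left_cancel₀ hk0 (h2.trans h2'.symm)
    rw [hcc, hss]

lemma Kends (hg : 0 ≤ g) (hg1 : g < 1)
    (hA : a₁ ^ 2 + a₂ ^ 2 = 1 - g * sin o ^ 2)
    (hB : b₁ ^ 2 + b₂ ^ 2 = 1 - g * cos o ^ 2) (hAB : a₁ * b₁ + a₂ * b₂ = -(g * sin o * cos o)) :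
    {x | (x.1 = 0 ∨ x.1 = π) ∧ KP e c₀ a₁ a₂ b₁ b₂ x}.encard ≤ 4 := by
  have h1 : {x | (x.1 = 0 ∨ x.1 = π) ∧ KP e c₀ a₁ a₂ b₁ b₂ x}.encard ≤
      (({(0 : ℝ), π} : Set ℝ) ×ˢ (univ : Set Bool)).encard := by
    classical
    apply Set.encard_le_encard_of_injOn
      (f := fun x : ℝ × ℝ × ℝ => (x.1, decide (0 < (a₁ * cos x.1 + b₁ * sin x.1) * x.2.1
        + (a₂ * cos x.1 + b₂ * sin x.1) * x.2.2)))
    · rintro ⟨v, c, s⟩ ⟨hv, hK⟩
      exact ⟨hv, trivial⟩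
    · rintro ⟨v, c, s⟩ ⟨hv, hK⟩ ⟨v', c', s'⟩ ⟨hv', hK'⟩ hvv
      simp only [Prod.mk.injEq, decide_eq_decide] at hvv
      obtain ⟨hvv, hsg⟩ := hvv
      subst hvv
      obtain ⟨k, h1, h2, h3, h4⟩ := KP_main hA hB hAB hK
      obtain ⟨k', h1', h2', h3', h4'⟩ := KP_main hA hB hAB hK'
      have hT : 0 < T g o v := T_pos hg hg1
      have hK1 := hK.2.1
      have hK1' := hK'.2.1
      simp only at hK1 hK1'
      rw [← h1, ← h2] at hsg
      have e1 : k * c * c + k * s * s = k := by linear_combination k * hK1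
      rw [e1] at hsg
      rw [h1, h2, ← h1', ← h2'] at hsg
      have e2 : k' * c' * c' + k' * s' * s' = k' := by linear_combination k' * hK1'
      rw [e2] at hsg
      have hk0 : k ≠ 0 := by
        intro h0
        rw [h0] at h3
        norm_num at h3
        exact hT.ne h3
      have hkk : k = k' := by
        have h5 : (k - k') * (k + k') = 0 := by linear_combination h3 - h3'
        rcases mul_eq_zero.1 h5 with h | h
        · linarith
        · exfalso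
          rcases lt_or_gt_of_ne hk0 with h6 | h6
          · have : 0 < k' := by linarith
            have := hsg.2 this
            linarith
          · have := hsg.1 h6
            linarith
      subst hkk
      have hcc : c = c' := mul_left_cancel₀ hk0 (h1.trans h1'.symm)
      have hss : s = s' := mul_left_cancel₀ hk0 (h2.trans h2'.symm)
      rw [hcc, hss]
  refine h1.trans ?_
  rw [Set.encard_prod, Set.encard_pair Real.pi_pos.ne, Set.encard_univ]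
  simp
  norm_num

lemma K_ends_m (hA : a₁ ^ 2 + a₂ ^ 2 = 1 - g * sin o ^ 2)
    (hB : b₁ ^ 2 + b₂ ^ 2 = 1 - g * cos o ^ 2) (hAB : a₁ * b₁ + a₂ * b₂ = -(g * sin o * cos o))
    (he : 0 < e) (he1 : e < 1) {x : ℝ × ℝ × ℝ} (hx : x.1 = 0 ∨ x.1 = π)
    (hK : KP e c₀ a₁ a₂ b₁ b₂ x) : g * sin (2 * o) = 0 := by
  obtain ⟨v, c, s⟩ := x
  simp only at hx
  obtain ⟨k, -, -, -, h4⟩ := KP_main hA hB hAB hK
  have hs : sin v = 0 := by rcases hx with h | h <;> simp [h]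
  rw [hs, mul_zero] at h4
  have hm : m e g o v = 0 := (mul_eq_zero.1 h4.symm).resolve_left (q_pos he he1).ne'
  unfold m at hm
  have hso : sin (v + o) * cos (v + o) = sin (2 * o) / 2 := by
    rw [sin_two_mul]
    rcases hx with h | h
    · rw [h, zero_add]; ring
    · rw [h, sin_add, cos_add]; simp; ring
  rw [hs, hso] at hm
  have hq : q e v ≠ 0 := (q_pos he he1).ne'
  have : q e v * (g * sin (2 * o)) = 0 := by linarith
  exact (mul_eq_zero.1 this).resolve_left hq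

lemma m_ends (h : g * sin (2 * o) = 0) : m e g o 0 = 0 ∧ m e g o π = 0 := by
  rw [sin_two_mul] at h
  unfold m T q
  constructor
  · simp
    rcases mul_eq_zero.1 h with h | h
    · left; exact Or.inl h
    · rcases mul_eq_zero.1 h with h | h
      · right; left; linarith
      · right; right; exact h
  · simp [sin_add, cos_add]
    rcases mul_eq_zero.1 h with h | h
    · left; exact Or.inl h
    · rcases mul_eq_zero.1 h with h | h
      · right; left; linarith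
      · right; right; exact h

lemma Psi1 (he : 0 < e) (he1 : e < 1) (hg : 0 ≤ g) (hg1 : g < 1) (h : g * sin (2 * o) = 0) :
    {v | v ∈ Ioo (0 : ℝ) π ∧ Psi e g o v = 0}.encard ≤ 1 := by
  rcases mul_eq_zero.1 h with h | h
  · subst h
    have : {v | v ∈ Ioo (0 : ℝ) π ∧ Psi e 0 o v = 0} = ∅ := by
      ext v
      constructor
      · rintro ⟨hv, h⟩
        exact absurd h (Psi_ne_zero_of_g0 he he1 hv)
      · intro h
        exact absurd h (Set.notMem_empty v)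
    rw [this]
    simp
  · exact Psiz1 he he1 hg hg1 h.ge

lemma Psi4 (he : 0 < e) (he1 : e < 1) (hg : 0 ≤ g) (hg1 : g < 1) (h : g * sin (2 * o) ≠ 0) :
    {v | v ∈ Ioo (0 : ℝ) π ∧ Psi e g o v = 0}.encard
      + {v | v ∈ Ioo (0 : ℝ) π ∧ Psi e g (-o) v = 0}.encard ≤ 4 := by
  have hg0 : 0 < g := lt_of_le_of_ne hg (fun h0 => h (by rw [← h0]; simp))
  have ho : sin (2 * o) ≠ 0 := fun h0 => h (by rw [h0]; simp)
  have hneg : sin (2 * -o) = - sin (2 * o) := by rw [mul_neg, sin_neg]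
  rcases lt_or_gt_of_ne ho with h1 | h1
  · have h2 := Psiz3 he he1 hg0 hg1 ho
    have h3 := Psiz1 (o := -o) he he1 hg hg1 (by rw [hneg]; linarith)
    refine (add_le_add h2 h3).trans (by norm_num)
  · have h2 := Psiz3 (o := -o) he he1 hg0 hg1 (by rw [hneg]; exact neg_ne_zero.2 ho)
    have h3 := Psiz1 he he1 hg hg1 h1.le
    refine (add_le_add h3 h2).trans (by norm_num)

theorem K_lt (he : 0 < e) (he1 : e < 1) (hg : 0 ≤ g) (hg1 : g < 1) (hc : 0 < c₀)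
    (hA : a₁ ^ 2 + a₂ ^ 2 = 1 - g * sin o ^ 2)
    (hB : b₁ ^ 2 + b₂ ^ 2 = 1 - g * cos o ^ 2) (hAB : a₁ * b₁ + a₂ * b₂ = -(g * sin o * cos o)) :
    {x | KP e c₀ a₁ a₂ b₁ b₂ x}.encard ≤ 10 := by
  have hsub : {x | KP e c₀ a₁ a₂ b₁ b₂ x} ⊆
      ({x | x.1 ∈ Ioo (0 : ℝ) π ∧ KP e c₀ a₁ a₂ b₁ b₂ x} ∪
        {x | x.1 ∈ Ioo (-π) 0 ∧ KP e c₀ a₁ a₂ b₁ b₂ x}) ∪
        {x | (x.1 = 0 ∨ x.1 = π) ∧ KP e c₀ a₁ a₂ b₁ b₂ x} := by
    intro x hx
    have h1 := hx.1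
    rcases lt_trichotomy x.1 0 with h | h | h
    · exact Or.inl (Or.inr ⟨⟨h1.1, h⟩, hx⟩)
    · exact Or.inr ⟨Or.inl h, hx⟩
    · rcases lt_or_eq_of_le h1.2 with h2 | h2
      · exact Or.inl (Or.inl ⟨⟨h, h2⟩, hx⟩)
      · exact Or.inr ⟨Or.inr h2, hx⟩
  have hup := (Kgen he he1 hg hg1 hc hA hB hAB (Ioo 0 π)
    (fun v hv => (sin_pos_of hv).ne')).trans (Hcount he he1 hg hg1 hc)
  have hlow := (Kgen he he1 hg hg1 hc hA hB hAB (Ioo (-π) 0)
    (fun v hv => (Real.sin_neg_of_neg_of_neg_pi_lt hv.2 hv.1).ne)).trans (Hlow he he1 hg hg1 hc)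
  have htot := (Set.encard_le_encard hsub).trans ((Set.encard_union_le _ _).trans
    (add_le_add_left (Set.encard_union_le _ _) _))
  set Ku := {x | x.1 ∈ Ioo (0 : ℝ) π ∧ KP e c₀ a₁ a₂ b₁ b₂ x}.encard
  set Kl := {x | x.1 ∈ Ioo (-π) 0 ∧ KP e c₀ a₁ a₂ b₁ b₂ x}.encard
  set K0 := {x | (x.1 = 0 ∨ x.1 = π) ∧ KP e c₀ a₁ a₂ b₁ b₂ x}.encard with hK0
  set pu := {v | v ∈ Ioo (0 : ℝ) π ∧ Psi e g o v = 0}.encard with hpu
  set pl := {v | v ∈ Ioo (0 : ℝ) π ∧ Psi e g (-o) v = 0}.encard with hpl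
  set mu := {v | v ∈ Ioo (0 : ℝ) π ∧ m e g o v = 0}.encard with hmu
  set ml := {v | v ∈ Ioo (-π) 0 ∧ m e g o v = 0}.encard with hml
  have hsum : Ku + Kl + K0 ≤ (pu + pl) + (mu + ml) + K0 + 2 := by
    refine (add_le_add_left (add_le_add hup hlow) K0).trans (le_of_eq ?_)
    have : (2 : ℕ∞) = 1 + 1 := by norm_num
    rw [this]
    ring
  by_cases h : g * sin (2 * o) = 0
  · have h' : g * sin (2 * -o) = 0 := by rw [mul_neg, sin_neg, mul_neg, h, neg_zero]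
    have e1 : pu ≤ 1 := Psi1 he he1 hg hg1 h
    have e2 : pl ≤ 1 := Psi1 he he1 hg hg1 h'
    have e3 : mu + ml ≤ 2 := m_arcs2 he (m_ends h).1 (m_ends h).2
    have e4 : K0 ≤ 4 := Kends hg hg1 hA hB hAB
    refine (htot.trans hsum).trans ((add_le_add_left (add_le_add (add_le_add (add_le_add e1 e2) e3)
      e4) 2).trans (by norm_num))
  · have e1 : pu + pl ≤ 4 := Psi4 he he1 hg hg1 h
    have e3 : mu + ml ≤ 4 := m_arcs he
    have e4 : K0 ≤ 0 := by
      have : {x | (x.1 = 0 ∨ x.1 = π) ∧ KP e c₀ a₁ a₂ b₁ b₂ x} = ∅ := by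
        rw [Set.eq_empty_iff_forall_notMem]
        rintro x ⟨hx, hK⟩
        exact h (K_ends_m hA hB hAB he he1 hx hK)
      rw [hK0, this]
      simp
    refine (htot.trans hsum).trans ((add_le_add_left (add_le_add (add_le_add e1 e3)
      e4) 2).trans (by norm_num))

end

end Pool.Agent.Q262.CE
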