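import Pool.Agent.Q262.CE.HDer
import Pool.Agent.Q262.CE.Cnt

set_option autoImplicit false

namespace Pool.Agent.Q262.CE

open Real Set

lemma sin_pos_of {v : ℝ} (hv : v ∈ Ioo (0 : ℝ) π) : 0 < sin v := sin_pos_of_mem_Ioo hv

lemma T_pos {g o v : ℝ} (h0 : 0 ≤ g) (h1 : g < 1) : 0 < T g o v := by
  unfold T
  have h2 : sin (v + o) ^ 2 ≤ 1 := sin_sq_le_one _
  have h3 : 0 ≤ sin (v + o) ^ 2 := sq_nonneg _
  nlinarith

theorem sinz (o : ℝ) : {v | v ∈ Ioo (0 : ℝ) π ∧ sin (2 * v + 2 * o) = 0}.encard ≤ 2 := by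
  -- inject into integers
  set t : ℝ := 2 * o / π with ht
  have hpi := Real.pi_pos
  have hsub : {v | v ∈ Ioo (0 : ℝ) π ∧ sin (2 * v + 2 * o) = 0} ⊆
      (fun k : ℤ => ((k : ℝ) * π - 2 * o) / 2) '' (Finset.Icc (⌊t⌋ + 1) (⌊t⌋ + 2) : Finset ℤ) := by
    rintro v ⟨hv, h0⟩
    obtain ⟨k, hk⟩ := Real.sin_eq_zero_iff.1 h0
    refine ⟨k, ?_, ?_⟩
    · rw [Finset.mem_coe, Finset.mem_Icc]
      have h1 : t < k := by
        rw [ht, div_lt_iff₀ hpi, hk]
        linarith [hv.1]
      have h2 : (k : ℝ) < t + 2 := by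
        rw [ht, ← sub_lt_iff_lt_add, lt_div_iff₀ hpi, sub_mul, hk]
        linarith [hv.2]
      constructor
      · have := Int.floor_lt.2 h1
        omega
      · have h3 : (k : ℝ) < (⌊t⌋ : ℝ) + 1 + 2 := h2.trans (by linarith [Int.lt_floor_add_one t])
        have h4 : k < ⌊t⌋ + 1 + 2 := by exact_mod_cast h3
        omega
    · show ((k : ℝ) * π - 2 * o) / 2 = v
      rw [hk]
      ring
  refine (Set.encard_le_encard hsub).trans ((Set.encard_image_le _ _).trans ?_)
  rw [Set.encard_coe_eq_coe_finsetCard, Int.card_Icc]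
  norm_num

theorem Yz {e o : ℝ} (he : 0 < e) (ho : sin (2 * o) ≠ 0) :
    {v | v ∈ Ioo (0 : ℝ) π ∧ Y e o v = 0}.encard ≤ 2 := by
  have hY0 : Y e o 0 = (1 + e) ^ 2 * sin (2 * o) := by
    unfold Y
    simp
    ring
  have h1 : {x | x = 0 ∨ (x ∈ Ioo (0 : ℝ) π ∧ Y e o x = 0)}.encard ≤
      {v | v ∈ Ioo (0 : ℝ) π ∧ sin (2 * v + 2 * o) = 0}.encard + 1 := by
    apply gap
    intro x y hx hy hxy
    have hy' : y ∈ Ioo (0 : ℝ) π ∧ Y e o y = 0 := by
      rcases hy with h | h
      · exfalso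
        rcases hx with h2 | h2
        · linarith
        · linarith [h2.1.1]
      · exact h
    rcases hx with hx | ⟨hx, hx0⟩
    · subst hx
      obtain ⟨z, hz, hz0⟩ := exists_hasDerivAt_eq_slope (Y e o)
        (fun v => 5 * e * sin v ^ 3 * sin (2 * v + 2 * o)) hxy
        (fun t _ => (hasDerivAt_Y e o t).continuousAt.continuousWithinAt)
        (fun t _ => hasDerivAt_Y e o t)
      have hzπ : z ∈ Ioo (0 : ℝ) π := ⟨hz.1, hz.2.trans hy'.1.2⟩
      have hsz := sin_pos_of hzπ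
      have h2 : 5 * e * sin z ^ 3 * sin (2 * z + 2 * o) * y = -((1 + e) ^ 2 * sin (2 * o)) := by
        have : 5 * e * sin z ^ 3 * sin (2 * z + 2 * o) = (Y e o y - Y e o 0) / (y - 0) := hz0
        rw [this, hy'.2, hY0, sub_zero]
        field_simp
        ring
      have h3 : sin (2 * z + 2 * o) * sin (2 * o) < 0 := by
        have h4 : 0 < 5 * e * sin z ^ 3 * y := by positivity
        have h5 : 5 * e * sin z ^ 3 * y * (sin (2 * z + 2 * o) * sin (2 * o)) < 0 := by
          have h6 : 0 < (1 + e) ^ 2 * sin (2 * o) ^ 2 := by positivity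
          have h7 : 5 * e * sin z ^ 3 * y * (sin (2 * z + 2 * o) * sin (2 * o))
              = -((1 + e) ^ 2 * sin (2 * o) ^ 2) := by
            linear_combination (sin (2 * o)) * h2
          linarith
        by_contra hcon
        push Not at hcon
        have := mul_nonneg h4.le hcon
        linarith
      have hcont : ContinuousOn (fun v => sin (2 * v + 2 * o)) (Icc 0 z) := by fun_prop
      rcases lt_or_gt_of_ne ho with h | h
      · have hz1 : 0 < sin (2 * z + 2 * o) := by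
          by_contra hcon
          push Not at hcon
          nlinarith [mul_nonneg_of_nonpos_of_nonpos hcon h.le]
        obtain ⟨s, hs, hs0⟩ := intermediate_value_Ioo hz.1.le hcont
          (show (0 : ℝ) ∈ Ioo (sin (2 * 0 + 2 * o)) (sin (2 * z + 2 * o)) from
            ⟨by simpa using h, hz1⟩)
        exact ⟨s, ⟨⟨hs.1, hs.2.trans hzπ.2⟩, hs0⟩, hs.1, hs.2.trans hz.2⟩
      · have hz1 : sin (2 * z + 2 * o) < 0 := by
          by_contra hcon
          push Not at hcon
          nlinarith [mul_nonneg hcon h.le]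
        obtain ⟨s, hs, hs0⟩ := intermediate_value_Ioo' hz.1.le hcont
          (show (0 : ℝ) ∈ Ioo (sin (2 * z + 2 * o)) (sin (2 * 0 + 2 * o)) from
            ⟨hz1, by simpa using h⟩)
        exact ⟨s, ⟨⟨hs.1, hs.2.trans hzπ.2⟩, hs0⟩, hs.1, hs.2.trans hz.2⟩
    · have hsub : ∀ t ∈ Icc x y, t ∈ Ioo (0 : ℝ) π :=
        fun t ht => ⟨hx.1.trans_le ht.1, ht.2.trans_lt hy'.1.2⟩
      obtain ⟨z, hz, hz0⟩ := exists_hasDerivAt_eq_zero (f := Y e o)
        (f' := fun v => 5 * e * sin v ^ 3 * sin (2 * v + 2 * o)) hxy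
        (fun t _ => (hasDerivAt_Y e o t).continuousAt.continuousWithinAt)
        (by rw [hx0, hy'.2]) (fun t _ => hasDerivAt_Y e o t)
      have hzπ := hsub z ⟨hz.1.le, hz.2.le⟩
      have hsz := sin_pos_of hzπ
      have h2 : sin (2 * z + 2 * o) = 0 := by
        have h4 : (5 * e * sin z ^ 3) ≠ 0 := by positivity
        exact (mul_eq_zero.1 hz0).resolve_left h4
      exact ⟨z, ⟨hzπ, h2⟩, hz.1, hz.2⟩
  have h2 : {x | x = 0 ∨ (x ∈ Ioo (0 : ℝ) π ∧ Y e o x = 0)} =
      insert 0 {v | v ∈ Ioo (0 : ℝ) π ∧ Y e o v = 0} := by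
    ext x
    simp
  rw [h2, Set.encard_insert_of_notMem (by simp)] at h1
  have h3 := h1.trans (add_le_add_left (sinz o) 1)
  exact (ENat.add_le_add_iff_right ENat.one_ne_top).1 h3

theorem Psi_ne_zero_of_g0 {e o v : ℝ} (he : 0 < e) (he1 : e < 1) (hv : v ∈ Ioo (0 : ℝ) π) :
    Psi e 0 o v ≠ 0 := by
  have hs := sin_pos_of hv
  have hq := q_pos (v := v) he he1
  simp only [Psi, Th, T, ka]
  have : 0 < q e v ^ 2 / sin v ^ 2 * ((e * sin v / q e v) ^ 2) := by positivity
  simp only [zero_mul, sub_zero, one_pow, mul_one, ne_eq, zero_pow, OfNat.ofNat_ne_zero,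
    not_false_eq_true, add_zero]
  exact this.ne'

theorem Psiz3 {e g o : ℝ} (he : 0 < e) (he1 : e < 1) (hg : 0 < g) (hg1 : g < 1)
    (ho : sin (2 * o) ≠ 0) :
    {v | v ∈ Ioo (0 : ℝ) π ∧ Psi e g o v = 0}.encard ≤ 3 := by
  have h1 := rolle_enc (f := Psi e g o)
    (f' := fun v => 3 * g * T g o v / (2 * sin v ^ 4) * Y e o v) (a := 0) (b := π)
    (fun x hx => hasDerivAt_Psi (q_pos he he1).ne' (sin_pos_of hx).ne')
  have h2 : {x | x ∈ Ioo (0 : ℝ) π ∧ 3 * g * T g o x / (2 * sin x ^ 4) * Y e o x = 0} ⊆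
      {v | v ∈ Ioo (0 : ℝ) π ∧ Y e o v = 0} := by
    rintro x ⟨hx, h⟩
    refine ⟨hx, ?_⟩
    have hs := sin_pos_of hx
    have hT : 0 < T g o x := T_pos hg.le hg1
    exact (mul_eq_zero.1 h).resolve_left (by positivity)
  have h3 := (Set.encard_le_encard h2).trans (Yz he ho)
  refine h1.trans ((add_le_add_left h3 1).trans ?_)
  norm_num

theorem Psiz1 {e g o : ℝ} (he : 0 < e) (he1 : e < 1) (hg : 0 ≤ g) (hg1 : g < 1)
    (ho : 0 ≤ sin (2 * o)) :
    {v | v ∈ Ioo (0 : ℝ) π ∧ Psi e g o v = 0}.encard ≤ 1 := by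
  rcases hg.eq_or_lt with hg0 | hg0
  · subst hg0
    have : {v | v ∈ Ioo (0 : ℝ) π ∧ Psi e 0 o v = 0} = ∅ := by
      ext v
      simp only [mem_setOf_eq, mem_empty_iff_false, iff_false, not_and]
      exact fun hv => Psi_ne_zero_of_g0 he he1 hv
    rw [this]
    simp
  rcases ho.eq_or_lt with ho0 | ho0
  · have h1 := rolle_enc (f := Psi e g o)
      (f' := fun v => 3 * g * T g o v / (2 * sin v ^ 4) * Y e o v) (a := 0) (b := π)
      (fun x hx => hasDerivAt_Psi (q_pos he he1).ne' (sin_pos_of hx).ne')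
    have h2 : {x | x ∈ Ioo (0 : ℝ) π ∧ 3 * g * T g o x / (2 * sin x ^ 4) * Y e o x = 0} = ∅ := by
      ext x
      simp only [mem_setOf_eq, mem_empty_iff_false, iff_false, not_and]
      intro hx
      have hs := sin_pos_of hx
      have hT : 0 < T g o x := T_pos hg hg1
      have hY : Y e o x = 2 * e * sin x ^ 5 * cos (2 * o) := by
        unfold Y
        rw [← ho0]
        ring
      have hc : cos (2 * o) ≠ 0 := by
        intro h
        have := sin_sq_add_cos_sq (2 * o)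
        rw [h, ← ho0] at this
        norm_num at this
      rw [hY]
      positivity
    rw [h2] at h1
    simpa using h1
  · apply cross_enc (f' := fun v => 3 * g * T g o v / (2 * sin v ^ 4) * Y e o v)
      (fun x hx => hasDerivAt_Psi (q_pos he he1).ne' (sin_pos_of hx).ne')
    intro x hx h0
    have hs := sin_pos_of hx
    have hT : 0 < T g o x := T_pos hg hg1
    have hq : 0 < q e x := q_pos he he1
    have hk := key (e := e) (g := g) (v := x) o hq.ne' hs.ne'
    rw [h0, mul_zero, sub_zero] at hk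
    have h3 : 0 < g * T g o x * Y e o x := by
      rw [hk]
      have : 0 ≤ 2 * e * sin x ^ 3 / q e x * m e g o x ^ 2 := by positivity
      positivity
    have h4 : 0 < Y e o x := by
      have h5 : 0 < g * T g o x := by positivity
      exact (pos_iff_pos_of_mul_pos h3).1 h5
    positivity

theorem Hcount {e g o c : ℝ} (he : 0 < e) (he1 : e < 1) (hg : 0 ≤ g) (hg1 : g < 1) (hc : 0 < c) :
    {v | v ∈ Ioo (0 : ℝ) π ∧ |H e g o v| = c}.encard ≤
      {v | v ∈ Ioo (0 : ℝ) π ∧ Psi e g o v = 0}.encard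
      + {v | v ∈ Ioo (0 : ℝ) π ∧ m e g o v = 0}.encard + 1 := by
  have h1 := level_enc (h := H e g o)
    (h' := fun v => -(sin v * Psi e g o v) / (T g o v * √(T g o v))) (a := 0) (b := π) hc
    (fun x hx => hasDerivAt_H (q_pos he he1).ne' (sin_pos_of hx).ne' (T_pos hg hg1))
  refine h1.trans ?_
  have hA : {x | x ∈ Ioo (0 : ℝ) π ∧ -(sin x * Psi e g o x) / (T g o x * √(T g o x)) = 0} ⊆
      {v | v ∈ Ioo (0 : ℝ) π ∧ Psi e g o v = 0} := by
    rintro v ⟨hv, h⟩
    refine ⟨hv, ?_⟩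
    have hT : 0 < T g o v := T_pos hg hg1
    have hr : 0 < √(T g o v) := Real.sqrt_pos.2 hT
    have hs := sin_pos_of hv
    rw [div_eq_zero_iff] at h
    rcases h with h | h
    · have h2 : sin v * Psi e g o v = 0 := by linarith
      exact (mul_eq_zero.1 h2).resolve_left hs.ne'
    · exact absurd h (by positivity)
  have hB : {x | x ∈ Ioo (0 : ℝ) π ∧ H e g o x = 0} ⊆
      {v | v ∈ Ioo (0 : ℝ) π ∧ m e g o v = 0} := by
    rintro v ⟨hv, h⟩
    refine ⟨hv, ?_⟩
    have hT : 0 < T g o v := T_pos hg hg1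
    have hr : 0 < √(T g o v) := Real.sqrt_pos.2 hT
    have hs := sin_pos_of hv
    have hq : 0 < q e v := q_pos he he1
    unfold H at h
    rw [div_eq_zero_iff] at h
    rcases h with h | h
    · exact (mul_eq_zero.1 h).resolve_left hq.ne'
    · exact absurd h (by positivity)
  exact add_le_add_left (add_le_add (Set.encard_le_encard hA) (Set.encard_le_encard hB)) 1

end Pool.Agent.Q262.CE
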